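import Mathlib

set_option autoImplicit false

open MeasureTheory Set Filter Topology Polynomial

/-!
# The column version of the bound, abstract form

`X φ` is a continuous accretive operator valued function on `[0, 2π]` which commutes with `A` and
represents the polynomial calculus of `A` along the curve `s`.
-/

namespace Pool.Agent.KS6_83.CZ

variable {H : Type*} [NormedAddCommGroup H] [InnerProductSpace ℂ H]

/-- Cauchy–Schwarz for an accretive operator. -/
theorem acc_cs {ι : Type*} [Fintype ι] (X : H →L[ℂ] H) (hX : ∀ u, 0 ≤ (inner ℂ u (X u)).re)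
    (a : ι → ℂ) (u : ι → H) :
    (inner ℂ (∑ i, a i • u i) (X (∑ i, a i • u i))).re ≤
      (∑ i, ‖a i‖ ^ 2) * ∑ i, (inner ℂ (u i) (X (u i))).re := by
  have h0 : 0 ≤ ∑ i, ∑ j, (inner ℂ ((starRingEnd ℂ) (a j) • u i - (starRingEnd ℂ) (a i) • u j)
      (X ((starRingEnd ℂ) (a j) • u i - (starRingEnd ℂ) (a i) • u j))).re :=
    Finset.sum_nonneg fun i _ => Finset.sum_nonneg fun j _ => hX _
  have h1 : ∀ i j, (inner ℂ ((starRingEnd ℂ) (a j) • u i - (starRingEnd ℂ) (a i) • u j)
      (X ((starRingEnd ℂ) (a j) • u i - (starRingEnd ℂ) (a i) • u j))).re =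
      ‖a j‖ ^ 2 * (inner ℂ (u i) (X (u i))).re + ‖a i‖ ^ 2 * (inner ℂ (u j) (X (u j))).re
        - (inner ℂ (a i • u i) (X (a j • u j))).re - (inner ℂ (a j • u j) (X (a i • u i))).re := by
    intro i j
    have e1 : ∀ z w : ℂ, (z * (starRingEnd ℂ z) * w).re = ‖z‖ ^ 2 * w.re := by
      intro z w
      rw [Complex.mul_conj, Complex.normSq_eq_norm_sq]
      exact Complex.re_ofReal_mul _ _
    rw [← e1, ← e1, ← Complex.add_re, ← Complex.sub_re, ← Complex.sub_re]
    congr 1
    simp only [map_sub, map_smul, inner_sub_left, inner_sub_right, inner_smul_left,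
      inner_smul_right, Complex.conj_conj]
    ring
  simp only [h1, Finset.sum_add_distrib, Finset.sum_sub_distrib] at h0
  have e2 : ∑ i, ∑ j, ‖a j‖ ^ 2 * (inner ℂ (u i) (X (u i))).re =
      (∑ i, ‖a i‖ ^ 2) * ∑ i, (inner ℂ (u i) (X (u i))).re := by
    rw [Finset.sum_comm, Finset.sum_mul_sum]
  have e3 : ∑ i, ∑ j, ‖a i‖ ^ 2 * (inner ℂ (u j) (X (u j))).re =
      (∑ i, ‖a i‖ ^ 2) * ∑ i, (inner ℂ (u i) (X (u i))).re := by
    rw [Finset.sum_mul_sum]
  have e4 : ∑ i, ∑ j, (inner ℂ (a i • u i) (X (a j • u j))).re =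
      (inner ℂ (∑ i, a i • u i) (X (∑ i, a i • u i))).re := by
    rw [map_sum, sum_inner, Complex.re_sum]
    refine Finset.sum_congr rfl fun i _ => ?_
    rw [inner_sum, Complex.re_sum]
  have e5 : ∑ i, ∑ j, (inner ℂ (a j • u j) (X (a i • u i))).re =
      (inner ℂ (∑ i, a i • u i) (X (∑ i, a i • u i))).re := by
    rw [Finset.sum_comm, e4]
  rw [e2, e3, e4, e5] at h0
  linarith

end Pool.Agent.KS6_83.CZ
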