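import Pool.Agent.KS6_83.CZ.ColAbs

set_option autoImplicit false

open MeasureTheory Set Filter Topology Polynomial

namespace Pool.Agent.KS6_83.CZ

variable {H : Type*} [NormedAddCommGroup H] [InnerProductSpace ℂ H] [CompleteSpace H]
variable {ι : Type*} [Fintype ι]

/-- `τ(φ) = Σ f_i(s(φ)) f_i(A)^*` -/
noncomputable def tau (A : H →L[ℂ] H) (s : ℝ → ℂ) (f : ι → Polynomial ℂ) (φ : ℝ) : H →L[ℂ] H :=
  ∑ i, (f i).eval (s φ) • star (aeval A (f i))

/-- the iterates `2π Σ T_{i1}...T_{ik} T_{ik}^*...T_{i1}^*` -/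
noncomputable def EE (A : H →L[ℂ] H) (f : ι → Polynomial ℂ) : ℕ → H →L[ℂ] H
  | 0 => ((2 * Real.pi : ℝ) : ℂ) • 1
  | (k + 1) => ∑ i, aeval A (f i) * EE A f k * star (aeval A (f i))

theorem tau_continuous (A : H →L[ℂ] H) (s : ℝ → ℂ) (f : ι → Polynomial ℂ) (hs : Continuous s) :
    Continuous (tau A s f) := by
  unfold tau
  fun_prop

theorem tau_pow_continuous (A : H →L[ℂ] H) (s : ℝ → ℂ) (f : ι → Polynomial ℂ) (hs : Continuous s)
    (k : ℕ) : Continuous (fun φ => tau A s f φ ^ k) :=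
  (tau_continuous A s f hs).pow k

theorem int_mul (A : H →L[ℂ] H) (s : ℝ → ℂ) (f : ι → Polynomial ℂ) (hs : Continuous s)
    (R : ℝ → H →L[ℂ] H) (hR : Continuous R)
    (hpoly : ∀ q : Polynomial ℂ, ∫ φ in (0 : ℝ)..(2 * Real.pi), q.eval (s φ) • R φ =
      ((2 * Real.pi : ℝ) : ℂ) • aeval A q) (k : ℕ) :
    ∀ q : Polynomial ℂ, ∫ φ in (0 : ℝ)..(2 * Real.pi), q.eval (s φ) • (R φ * tau A s f φ ^ k) =
      aeval A q * EE A f k := by
  induction k with
  | zero =>
    intro q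
    simp only [pow_zero, mul_one, EE]
    rw [hpoly, mul_smul_comm, mul_one]
  | succ k ih =>
    intro q
    have hτk := tau_pow_continuous A s f hs k
    have e1 : ∀ φ, q.eval (s φ) • (R φ * tau A s f φ ^ (k + 1)) =
        ∑ i, ((q * f i).eval (s φ) • (R φ * tau A s f φ ^ k)) * star (aeval A (f i)) := by
      intro φ
      have eτ : tau A s f φ ^ (k + 1) =
          ∑ i, tau A s f φ ^ k * ((f i).eval (s φ) • star (aeval A (f i))) := by
        rw [pow_succ, ← Finset.mul_sum]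
        rfl
      rw [eτ, Finset.mul_sum, Finset.smul_sum]
      refine Finset.sum_congr rfl fun i _ => ?_
      rw [eval_mul, mul_smul_comm, mul_smul_comm, smul_smul, smul_mul_assoc, mul_assoc]
    rw [intervalIntegral.integral_congr (fun φ _ => e1 φ)]
    rw [intervalIntegral.integral_finsetSum]
    · simp only [EE]
      rw [Finset.mul_sum]
      refine Finset.sum_congr rfl fun i _ => ?_
      have i1 : IntervalIntegrable (fun φ => (q * f i).eval (s φ) • (R φ * tau A s f φ ^ k))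
          volume 0 (2 * Real.pi) := by
        apply Continuous.intervalIntegrable; fun_prop
      have e2 : (∫ φ in (0 : ℝ)..(2 * Real.pi), (q * f i).eval (s φ) • (R φ * tau A s f φ ^ k)) *
          star (aeval A (f i)) =
          ∫ φ in (0 : ℝ)..(2 * Real.pi), ((q * f i).eval (s φ) • (R φ * tau A s f φ ^ k)) *
            star (aeval A (f i)) :=
        (ContinuousLinearMap.intervalIntegral_comp_comm
            ((ContinuousLinearMap.mul ℂ (H →L[ℂ] H)).flip (star (aeval A (f i)))) i1).symm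
      rw [← e2, ih (q * f i), map_mul]
      simp only [mul_assoc]
    · intro i _
      apply Continuous.intervalIntegrable
      fun_prop

theorem tau_pow_norm (A : H →L[ℂ] H) (s : ℝ → ℂ) (f : ι → Polynomial ℂ)
    (R : ℝ → H →L[ℂ] H)
    (hpoly : ∀ q : Polynomial ℂ, ∫ φ in (0 : ℝ)..(2 * Real.pi), q.eval (s φ) • R φ =
      ((2 * Real.pi : ℝ) : ℂ) • aeval A q)
    (hf : ∀ φ, ∑ i, ‖(f i).eval (s φ)‖ ^ 2 ≤ 1) (K : ℝ)
    (hK : ∀ φ ∈ uIcc (0 : ℝ) (2 * Real.pi), ‖R φ‖ ≤ K) (φ : ℝ) (k : ℕ) :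
    ‖tau A s f φ ^ k‖ ≤ K := by
  have hπ : (0 : ℝ) < 2 * Real.pi := by positivity
  set g : Polynomial ℂ := ∑ i, C ((starRingEnd ℂ) ((f i).eval (s φ))) * f i with hg
  have hg1 : ∀ ψ, ‖g.eval (s ψ)‖ ≤ 1 := by
    intro ψ
    rw [hg, eval_finsetSum]
    simp only [eval_mul, eval_C]
    calc ‖∑ i, (starRingEnd ℂ) ((f i).eval (s φ)) * (f i).eval (s ψ)‖
        ≤ ∑ i, ‖(starRingEnd ℂ) ((f i).eval (s φ)) * (f i).eval (s ψ)‖ := norm_sum_le _ _
      _ ≤ ∑ i, (‖(f i).eval (s φ)‖ ^ 2 + ‖(f i).eval (s ψ)‖ ^ 2) / 2 := by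
          refine Finset.sum_le_sum fun i _ => ?_
          rw [norm_mul, RCLike.norm_conj]
          nlinarith [sq_nonneg (‖(f i).eval (s φ)‖ - ‖(f i).eval (s ψ)‖)]
      _ = ((∑ i, ‖(f i).eval (s φ)‖ ^ 2) + ∑ i, ‖(f i).eval (s ψ)‖ ^ 2) / 2 := by
          rw [← Finset.sum_div, Finset.sum_add_distrib]
      _ ≤ 1 := by linarith [hf φ, hf ψ]
  have e1 : tau A s f φ = star (aeval A g) := by
    rw [hg, map_sum, star_sum, tau]
    refine Finset.sum_congr rfl fun i _ => ?_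
    rw [map_mul, aeval_C, Algebra.algebraMap_eq_smul_one, smul_mul_assoc, one_mul, star_smul]
    simp
  rw [e1, ← star_pow, norm_star, ← map_pow]
  have h1 := hpoly (g ^ k)
  have h2 : ‖∫ ψ in (0 : ℝ)..(2 * Real.pi), (g ^ k).eval (s ψ) • R ψ‖ ≤
      K * |2 * Real.pi - 0| := by
    apply intervalIntegral.norm_integral_le_of_norm_le_const
    intro ψ hψ
    rw [norm_smul, eval_pow, norm_pow]
    calc ‖g.eval (s ψ)‖ ^ k * ‖R ψ‖ ≤ 1 * ‖R ψ‖ := by
          gcongr
          exact pow_le_one₀ (norm_nonneg _) (hg1 ψ)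
      _ = ‖R ψ‖ := one_mul _
      _ ≤ K := hK ψ (uIoc_subset_uIcc hψ)
  rw [h1, norm_smul, Complex.norm_real, Real.norm_eq_abs, sub_zero, mul_comm] at h2
  exact le_of_mul_le_mul_right h2 (by positivity)

theorem re_int (Y : ℝ → H →L[ℂ] H) (hY : Continuous Y) (v u : H) :
    ∫ φ in (0 : ℝ)..(2 * Real.pi), (inner ℂ v (Y φ u)).re =
      (inner ℂ v ((∫ φ in (0 : ℝ)..(2 * Real.pi), Y φ) u)).re := by
  have e1 := ContinuousLinearMap.intervalIntegral_comp_comm
    ((innerSL ℂ v).comp (ContinuousLinearMap.apply ℂ H u)) (f := Y) (a := (0 : ℝ))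
    (b := 2 * Real.pi) (μ := volume) (hY.intervalIntegrable _ _)
  have hYc : Continuous (fun φ => inner ℂ v (Y φ u)) := by fun_prop
  have e2 := ContinuousLinearMap.intervalIntegral_comp_comm Complex.reCLM
    (f := fun φ => inner ℂ v (Y φ u)) (a := (0 : ℝ)) (b := 2 * Real.pi) (μ := volume)
    (hYc.intervalIntegrable _ _)
  have e3 : ∫ φ in (0 : ℝ)..(2 * Real.pi), inner ℂ v (Y φ u) =
      inner ℂ v ((∫ φ in (0 : ℝ)..(2 * Real.pi), Y φ) u) := e1
  rw [← e3]
  exact e2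

/-- `∫ Re⟨v, X τ^k u⟩ = Re⟨v, E_k u⟩`. -/
theorem re_int_tau (A : H →L[ℂ] H) (s : ℝ → ℂ) (f : ι → Polynomial ℂ) (hs : Continuous s)
    (R : ℝ → H →L[ℂ] H) (hR : Continuous R)
    (hpoly : ∀ q : Polynomial ℂ, ∫ φ in (0 : ℝ)..(2 * Real.pi), q.eval (s φ) • R φ =
      ((2 * Real.pi : ℝ) : ℂ) • aeval A q) (k : ℕ) (q : Polynomial ℂ) (v u : H) :
    ∫ φ in (0 : ℝ)..(2 * Real.pi), (inner ℂ v ((q.eval (s φ) • (R φ * tau A s f φ ^ k)) u)).re =
      (inner ℂ v ((aeval A q) (EE A f k u))).re := by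
  have hτk := tau_pow_continuous A s f hs k
  rw [re_int (fun φ => q.eval (s φ) • (R φ * tau A s f φ ^ k)) (by fun_prop) v u,
    int_mul A s f hs R hR hpoly k q]
  rfl

/-- `Q(τ^k g) ≤ Re⟨g, E_k g⟩`. -/
theorem Q_tau_le (A : H →L[ℂ] H) (s : ℝ → ℂ) (f : ι → Polynomial ℂ) (hs : Continuous s)
    (R : ℝ → H →L[ℂ] H) (hR : Continuous R) (hRe : ∀ φ u, 0 ≤ (inner ℂ u (R φ u)).re)
    (hpoly : ∀ q : Polynomial ℂ, ∫ φ in (0 : ℝ)..(2 * Real.pi), q.eval (s φ) • R φ =
      ((2 * Real.pi : ℝ) : ℂ) • aeval A q)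
    (hf : ∀ φ, ∑ i, ‖(f i).eval (s φ)‖ ^ 2 ≤ 1) (k : ℕ) :
    ∀ g : H, ∫ φ in (0 : ℝ)..(2 * Real.pi),
      (inner ℂ ((tau A s f φ ^ k) g) (R φ ((tau A s f φ ^ k) g))).re ≤
        (inner ℂ g (EE A f k g)).re := by
  have hπ : (0 : ℝ) ≤ 2 * Real.pi := by positivity
  induction k with
  | zero =>
    intro g
    have := re_int_tau A s f hs R hR hpoly 0 1 g g
    simp only [eval_one, one_smul, pow_zero, mul_one, map_one, one_apply_eq_self]
      at this ⊢
    exact this.le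
  | succ k ih =>
    intro g
    have hτk := tau_pow_continuous A s f hs k
    have hτk1 := tau_pow_continuous A s f hs (k + 1)
    have eτ : ∀ φ, (tau A s f φ ^ (k + 1)) g =
        ∑ i, (f i).eval (s φ) • ((tau A s f φ ^ k) (star (aeval A (f i)) g)) := by
      intro φ
      rw [pow_succ]
      show (tau A s f φ ^ k) ((∑ i, (f i).eval (s φ) • star (aeval A (f i))) g) = _
      rw [sum_apply, map_sum]
      refine Finset.sum_congr rfl fun i _ => ?_
      rw [smul_apply, map_smul]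
    have hc1 : Continuous fun φ => (inner ℂ ((tau A s f φ ^ (k + 1)) g)
        (R φ ((tau A s f φ ^ (k + 1)) g))).re := by
      apply Complex.continuous_re.comp
      fun_prop
    have hc2 : ∀ i, Continuous fun φ => (inner ℂ ((tau A s f φ ^ k) (star (aeval A (f i)) g))
        (R φ ((tau A s f φ ^ k) (star (aeval A (f i)) g)))).re := by
      intro i
      apply Complex.continuous_re.comp
      fun_prop
    calc ∫ φ in (0 : ℝ)..(2 * Real.pi),
          (inner ℂ ((tau A s f φ ^ (k + 1)) g) (R φ ((tau A s f φ ^ (k + 1)) g))).re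
        ≤ ∫ φ in (0 : ℝ)..(2 * Real.pi),
          ∑ i, (inner ℂ ((tau A s f φ ^ k) (star (aeval A (f i)) g))
            (R φ ((tau A s f φ ^ k) (star (aeval A (f i)) g)))).re := by
          apply intervalIntegral.integral_mono_on hπ (hc1.intervalIntegrable _ _)
            ((continuous_finsetSum _ fun i _ => hc2 i).intervalIntegrable _ _)
          intro φ _
          rw [eτ φ]
          refine (acc_cs (R φ) (hRe φ) _ _).trans ?_
          exact mul_le_of_le_one_left (Finset.sum_nonneg fun i _ => hRe φ _) (hf φ)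
      _ = ∑ i, ∫ φ in (0 : ℝ)..(2 * Real.pi),
          (inner ℂ ((tau A s f φ ^ k) (star (aeval A (f i)) g))
            (R φ ((tau A s f φ ^ k) (star (aeval A (f i)) g)))).re := by
          rw [intervalIntegral.integral_finsetSum]
          intro i _
          exact (hc2 i).intervalIntegrable _ _
      _ ≤ ∑ i, (inner ℂ (star (aeval A (f i)) g) (EE A f k (star (aeval A (f i)) g))).re :=
          Finset.sum_le_sum fun i _ => ih _
      _ = (inner ℂ g (EE A f (k + 1) g)).re := by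
          rw [EE, sum_apply, inner_sum, Complex.re_sum]
          refine Finset.sum_congr rfl fun i _ => ?_
          rw [ContinuousLinearMap.star_eq_adjoint, ContinuousLinearMap.adjoint_inner_left]
          rfl

end Pool.Agent.KS6_83.CZ
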