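import Pool.Agent.KS6_83.CZ.ColAbs2

set_option autoImplicit false

open MeasureTheory Set Filter Topology Polynomial

namespace Pool.Agent.KS6_83.CZ

variable {H : Type*} [NormedAddCommGroup H] [InnerProductSpace ℂ H] [CompleteSpace H]
variable {ι : Type*} [Fintype ι]

theorem geom_le (κ : ℝ) (hκ : 1 < κ) (n : ℕ) :
    ∑ k ∈ Finset.range n, (κ⁻¹) ^ (k + 1) ≤ (κ - 1)⁻¹ := by
  have h0 : (0 : ℝ) < κ := by linarith
  have h1 : ∑ k ∈ Finset.range n, (κ⁻¹) ^ (k + 1) = (κ - 1)⁻¹ * (1 - (κ⁻¹) ^ n) := by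
    have hne : κ - 1 ≠ 0 := by linarith
    induction n with
    | zero => simp
    | succ n ih =>
      rw [Finset.sum_range_succ, ih, pow_succ]
      field_simp
      ring
  rw [h1]
  have h2 : 0 ≤ (κ - 1)⁻¹ := by
    apply inv_nonneg.mpr; linarith
  have h3 : 0 ≤ (κ⁻¹) ^ n := by positivity
  nlinarith

/-- the pointwise inequality -/
theorem pointwise (R : H →L[ℂ] H) (hR : ∀ u, 0 ≤ (inner ℂ u (R u)).re) (T : ι → H →L[ℂ] H)
    (hc : ∀ i, T i * R = R * T i) (z : ι → ℂ) (hz : ∑ i, ‖z i‖ ^ 2 ≤ 1) (κ : ℝ) (hκ : 1 < κ)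
    (τ : H →L[ℂ] H) (hτ : τ = ∑ i, z i • star (T i)) (x : H) (n : ℕ) :
    0 ≤ κ⁻¹ ^ 2 * ∑ i, (inner ℂ (T i x) (R (T i x))).re
      - κ⁻¹ * ∑ k ∈ Finset.range (n + 1), (κ⁻¹) ^ k *
          ∑ i, (inner ℂ (T i x) ((z i • (R * τ ^ k)) x)).re
      - (κ⁻¹) ^ (n + 1) * (inner ℂ ((τ ^ (n + 1)) x) (R x)).re
      + (inner ℂ x (R x)).re
      + ∑ k ∈ Finset.range n, (κ⁻¹) ^ (k + 1) * (inner ℂ x ((R * τ ^ (k + 1)) x)).re
      + (κ - 1)⁻¹ * ∑ k ∈ Finset.range n, (κ⁻¹) ^ (k + 1) *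
          (inner ℂ ((τ ^ (k + 1)) x) (R ((τ ^ (k + 1)) x))).re := by
  have hκ0 : 0 < κ := by linarith
  set ω : H := ∑ k ∈ Finset.range n, (((κ⁻¹) ^ (k + 1) : ℝ) : ℂ) • (τ ^ (k + 1)) x with hω
  set w : H := x + ω with hw
  set y : ι → H := fun i => ((κ⁻¹ : ℝ) : ℂ) • T i x with hy
  have hwsum : w = ∑ k ∈ Finset.range (n + 1), (((κ⁻¹) ^ k : ℝ) : ℂ) • (τ ^ k) x := by
    rw [Finset.sum_range_succ']
    simp only [pow_zero, Complex.ofReal_one, one_smul]
    rw [hw, hω, add_comm]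
    rfl
  have hτw : ((κ⁻¹ : ℝ) : ℂ) • τ w = ω + (((κ⁻¹) ^ (n + 1) : ℝ) : ℂ) • (τ ^ (n + 1)) x := by
    rw [hwsum, map_sum, Finset.smul_sum, hω, ← Finset.sum_range_succ]
    refine Finset.sum_congr rfl fun k _ => ?_
    rw [map_smul, smul_smul, ← Complex.ofReal_mul, ← pow_succ', pow_succ' τ]
    rfl
  have hreal : ∀ (r : ℝ) (u v : H), (inner ℂ ((r : ℂ) • u) v).re = r * (inner ℂ u v).re := by
    intro r u v
    rw [inner_smul_left, Complex.conj_ofReal, Complex.re_ofReal_mul]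
  have hreal' : ∀ (r : ℝ) (u v : H), (inner ℂ u ((r : ℂ) • v)).re = r * (inner ℂ u v).re := by
    intro r u v
    rw [inner_smul_right, Complex.re_ofReal_mul]
  -- the basic positivity
  have h0 : 0 ≤ ∑ i, (inner ℂ (y i - z i • w) (R (y i - z i • w))).re :=
    Finset.sum_nonneg fun i _ => hR _
  have h1 : ∀ i, (inner ℂ (y i - z i • w) (R (y i - z i • w))).re =
      κ⁻¹ ^ 2 * (inner ℂ (T i x) (R (T i x))).re
        - κ⁻¹ * ∑ k ∈ Finset.range (n + 1), (κ⁻¹) ^ k *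
          (inner ℂ (T i x) ((z i • (R * τ ^ k)) x)).re
        - (inner ℂ (((κ⁻¹ : ℝ) : ℂ) • (z i • star (T i)) w) (R x)).re
        + ‖z i‖ ^ 2 * (inner ℂ w (R w)).re := by
    intro i
    have a1 : (inner ℂ (y i) (R (y i))).re = κ⁻¹ ^ 2 * (inner ℂ (T i x) (R (T i x))).re := by
      simp only [hy]
      rw [map_smul, hreal, hreal']
      ring
    have a2 : (inner ℂ (y i) (R (z i • w))).re = κ⁻¹ * ∑ k ∈ Finset.range (n + 1), (κ⁻¹) ^ k *
          (inner ℂ (T i x) ((z i • (R * τ ^ k)) x)).re := by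
      simp only [hy]
      rw [hreal, hwsum, Finset.smul_sum, map_sum, inner_sum, Complex.re_sum]
      congr 1
      refine Finset.sum_congr rfl fun k _ => ?_
      rw [smul_comm, map_smul, hreal', map_smul]
      rfl
    have a3 : (inner ℂ (z i • w) (R (y i))).re =
        (inner ℂ (((κ⁻¹ : ℝ) : ℂ) • (z i • star (T i)) w) (R x)).re := by
      simp only [hy]
      rw [map_smul, hreal', hreal]
      congr 1
      have e1 : R (T i x) = T i (R x) := by
        have := congrArg (fun Z : H →L[ℂ] H => Z x) (hc i)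
        exact this.symm
      rw [e1, smul_apply, inner_smul_left, inner_smul_left,
        ContinuousLinearMap.star_eq_adjoint, ContinuousLinearMap.adjoint_inner_left]
    have a4 : (inner ℂ (z i • w) (R (z i • w))).re = ‖z i‖ ^ 2 * (inner ℂ w (R w)).re := by
      rw [map_smul, inner_smul_left, inner_smul_right, ← mul_assoc, mul_comm ((starRingEnd ℂ) (z i)),
        Complex.mul_conj, Complex.normSq_eq_norm_sq, Complex.re_ofReal_mul]
    rw [map_sub, inner_sub_left, inner_sub_right, inner_sub_right, Complex.sub_re, Complex.sub_re,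
      Complex.sub_re, a1, a2, a3, a4]
    ring
  simp only [h1, Finset.sum_add_distrib, Finset.sum_sub_distrib, ← Finset.mul_sum,
    ← Finset.sum_mul] at h0
  have e1 : ∑ i, (inner ℂ (((κ⁻¹ : ℝ) : ℂ) • (z i • star (T i)) w) (R x)).re =
      (inner ℂ ω (R x)).re + (κ⁻¹) ^ (n + 1) * (inner ℂ ((τ ^ (n + 1)) x) (R x)).re := by
    rw [← Complex.re_sum, ← sum_inner, ← Finset.smul_sum]
    have : ∑ i, (z i • star (T i)) w = τ w := by
      rw [hτ, sum_apply]
    rw [this, hτw, inner_add_left, Complex.add_re, hreal]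
  have e2 : ∑ i, ∑ k ∈ Finset.range (n + 1), (κ⁻¹) ^ k *
          (inner ℂ (T i x) ((z i • (R * τ ^ k)) x)).re =
      ∑ k ∈ Finset.range (n + 1), (κ⁻¹) ^ k *
          ∑ i, (inner ℂ (T i x) ((z i • (R * τ ^ k)) x)).re := by
    rw [Finset.sum_comm]
    refine Finset.sum_congr rfl fun k _ => ?_
    rw [Finset.mul_sum]
  rw [e1, e2] at h0
  have h2 : (∑ i, ‖z i‖ ^ 2) * (inner ℂ w (R w)).re ≤ (inner ℂ w (R w)).re :=
    mul_le_of_le_one_left (hR w) hz
  have h3 : (inner ℂ w (R w)).re = (inner ℂ x (R x)).re + (inner ℂ x (R ω)).re +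
      (inner ℂ ω (R x)).re + (inner ℂ ω (R ω)).re := by
    rw [hw, map_add, inner_add_left, inner_add_right, inner_add_right, Complex.add_re,
      Complex.add_re, Complex.add_re]
    ring
  have h4 : (inner ℂ x (R ω)).re =
      ∑ k ∈ Finset.range n, (κ⁻¹) ^ (k + 1) * (inner ℂ x ((R * τ ^ (k + 1)) x)).re := by
    rw [hω, map_sum, inner_sum, Complex.re_sum]
    refine Finset.sum_congr rfl fun k _ => ?_
    rw [map_smul, hreal']
    rfl
  have h5 : (inner ℂ ω (R ω)).re ≤ (κ - 1)⁻¹ * ∑ k ∈ Finset.range n, (κ⁻¹) ^ (k + 1) *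
          (inner ℂ ((τ ^ (k + 1)) x) (R ((τ ^ (k + 1)) x))).re := by
    have hs : ∀ k : ℕ, Real.sqrt ((κ⁻¹) ^ (k + 1)) * Real.sqrt ((κ⁻¹) ^ (k + 1)) =
        (κ⁻¹) ^ (k + 1) := fun k => Real.mul_self_sqrt (by positivity)
    have b1 := acc_cs R hR
      (fun k : Fin n => ((Real.sqrt ((κ⁻¹) ^ ((k : ℕ) + 1)) : ℝ) : ℂ))
      (fun k : Fin n => ((Real.sqrt ((κ⁻¹) ^ ((k : ℕ) + 1)) : ℝ) : ℂ) • (τ ^ ((k : ℕ) + 1)) x)
    have b2 : ∑ k : Fin n, ((Real.sqrt ((κ⁻¹) ^ ((k : ℕ) + 1)) : ℝ) : ℂ) •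
        ((Real.sqrt ((κ⁻¹) ^ ((k : ℕ) + 1)) : ℝ) : ℂ) • (τ ^ ((k : ℕ) + 1)) x = ω := by
      rw [hω, ← Fin.sum_univ_eq_sum_range
        (fun k => (((κ⁻¹) ^ (k + 1) : ℝ) : ℂ) • (τ ^ (k + 1)) x) n]
      refine Finset.sum_congr rfl fun k _ => ?_
      rw [smul_smul, ← Complex.ofReal_mul, hs]
    have b3 : ∑ k : Fin n, ‖((Real.sqrt ((κ⁻¹) ^ ((k : ℕ) + 1)) : ℝ) : ℂ)‖ ^ 2 ≤ (κ - 1)⁻¹ := by
      refine le_trans (le_of_eq ?_) (geom_le κ hκ n)
      rw [← Fin.sum_univ_eq_sum_range (fun k => (κ⁻¹) ^ (k + 1)) n]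
      refine Finset.sum_congr rfl fun k _ => ?_
      rw [Complex.norm_real, Real.norm_eq_abs, sq_abs, sq, hs]
    have b4 : ∑ k : Fin n, (inner ℂ
        (((Real.sqrt ((κ⁻¹) ^ ((k : ℕ) + 1)) : ℝ) : ℂ) • (τ ^ ((k : ℕ) + 1)) x)
        (R (((Real.sqrt ((κ⁻¹) ^ ((k : ℕ) + 1)) : ℝ) : ℂ) • (τ ^ ((k : ℕ) + 1)) x))).re =
        ∑ k ∈ Finset.range n, (κ⁻¹) ^ (k + 1) *
          (inner ℂ ((τ ^ (k + 1)) x) (R ((τ ^ (k + 1)) x))).re := by
      rw [← Fin.sum_univ_eq_sum_range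
        (fun k => (κ⁻¹) ^ (k + 1) * (inner ℂ ((τ ^ (k + 1)) x) (R ((τ ^ (k + 1)) x))).re) n]
      refine Finset.sum_congr rfl fun k _ => ?_
      rw [map_smul, hreal, hreal', ← mul_assoc, hs]
    rw [b2, b4] at b1
    refine b1.trans ?_
    apply mul_le_mul_of_nonneg_right b3
    exact Finset.sum_nonneg fun k _ => mul_nonneg (by positivity) (hR _)
  have h6 := h2.trans_eq h3
  rw [h4] at h6
  linarith

theorem int6 {x y : ℝ} {f1 f2 f3 f4 f5 f6 : ℝ → ℝ}
    (h1 : Continuous f1) (h2 : Continuous f2) (h3 : Continuous f3) (h4 : Continuous f4)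
    (h5 : Continuous f5) (h6 : Continuous f6) :
    ∫ t in x..y, (f1 t - f2 t - f3 t + f4 t + f5 t + f6 t) =
      (∫ t in x..y, f1 t) - (∫ t in x..y, f2 t) - (∫ t in x..y, f3 t)
        + (∫ t in x..y, f4 t) + (∫ t in x..y, f5 t) + (∫ t in x..y, f6 t) := by
  have i1 := h1.intervalIntegrable (μ := volume) x y
  have i2 := h2.intervalIntegrable (μ := volume) x y
  have i3 := h3.intervalIntegrable (μ := volume) x y
  have i4 := h4.intervalIntegrable (μ := volume) x y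
  have i5 := h5.intervalIntegrable (μ := volume) x y
  have i6 := h6.intervalIntegrable (μ := volume) x y
  rw [intervalIntegral.integral_add ((((i1.sub i2).sub i3).add i4).add i5) i6,
    intervalIntegral.integral_add (((i1.sub i2).sub i3).add i4) i5,
    intervalIntegral.integral_add ((i1.sub i2).sub i3) i4,
    intervalIntegral.integral_sub (i1.sub i2) i3, intervalIntegral.integral_sub i1 i2]

set_option maxHeartbeats 4000000 in
/-- **The abstract column theorem.** -/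
theorem col_abs (A : H →L[ℂ] H) (s : ℝ → ℂ) (f : ι → Polynomial ℂ) (hs : Continuous s)
    (R : ℝ → H →L[ℂ] H) (hR : Continuous R) (hRe : ∀ φ u, 0 ≤ (inner ℂ u (R φ u)).re)
    (hcomm : ∀ φ (q : Polynomial ℂ), aeval A q * R φ = R φ * aeval A q)
    (hpoly : ∀ q : Polynomial ℂ, ∫ φ in (0 : ℝ)..(2 * Real.pi), q.eval (s φ) • R φ =
      ((2 * Real.pi : ℝ) : ℂ) • aeval A q)
    (hf : ∀ φ, ∑ i, ‖(f i).eval (s φ)‖ ^ 2 ≤ 1) (x₀ : H) :
    ∑ i, ‖aeval A (f i) x₀‖ ^ 2 ≤ 4 * ‖x₀‖ ^ 2 := by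
  have hπ : (0 : ℝ) < 2 * Real.pi := by positivity
  set T : ι → H →L[ℂ] H := fun i => aeval A (f i) with hT
  by_contra hcon
  push Not at hcon
  -- the norm of the column
  set N : H → ℝ := fun x => ∑ i, ‖T i x‖ ^ 2 with hN
  have hNs : ∀ (c : ℝ) (x : H), N ((c : ℂ) • x) = c ^ 2 * N x := by
    intro c x
    simp only [hN]
    rw [Finset.mul_sum]
    refine Finset.sum_congr rfl fun i _ => ?_
    rw [map_smul, norm_smul, Complex.norm_real, Real.norm_eq_abs, mul_pow, sq_abs]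
  set V : Set ℝ := {r | ∃ x : H, ‖x‖ = 1 ∧ r = N x} with hV
  have hVb : BddAbove V := by
    refine ⟨∑ i, ‖T i‖ ^ 2, ?_⟩
    rintro r ⟨x, hx, rfl⟩
    refine Finset.sum_le_sum fun i _ => ?_
    gcongr
    have := (T i).le_opNorm x
    rwa [hx, mul_one] at this
  set L := sSup V with hL
  have hmem : ∀ x : H, x ≠ 0 → N x = ‖x‖ ^ 2 * N (((‖x‖⁻¹ : ℝ) : ℂ) • x) ∧
      N (((‖x‖⁻¹ : ℝ) : ℂ) • x) ∈ V := by
    intro x hx
    have hn : ‖x‖ ≠ 0 := norm_ne_zero_iff.mpr hx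
    refine ⟨?_, _, ?_, rfl⟩
    · rw [hNs]
      field_simp
    · rw [norm_smul, Complex.norm_real, norm_inv, norm_norm, inv_mul_cancel₀ hn]
  have hNL : ∀ x, N x ≤ L * ‖x‖ ^ 2 := by
    intro x
    by_cases hx : x = 0
    · simp [hN, hx]
    obtain ⟨h1, h2⟩ := hmem x hx
    rw [h1, mul_comm]
    gcongr
    exact le_csSup hVb h2
  have hx0 : x₀ ≠ 0 := by
    rintro rfl
    simp at hcon
  have hL4 : 4 < L := by
    have h1 : 4 * ‖x₀‖ ^ 2 < L * ‖x₀‖ ^ 2 := hcon.trans_le (hNL x₀)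
    exact lt_of_mul_lt_mul_right h1 (by positivity)
  have hVne : V.Nonempty := ⟨_, (hmem x₀ hx0).2⟩
  set κ := Real.sqrt L with hκd
  have hκL : κ ^ 2 = L := Real.sq_sqrt (by linarith)
  have hκ2 : 2 < κ := by
    rw [hκd]
    apply Real.lt_sqrt_of_sq_lt
    linarith
  have hκ0 : 0 < κ := by linarith
  obtain ⟨K, hK⟩ := (isCompact_uIcc (a := (0 : ℝ)) (b := 2 * Real.pi)).exists_bound_of_continuousOn
    hR.continuousOn
  have hK0 : 0 ≤ K := (norm_nonneg _).trans (hK 0 left_mem_uIcc)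
  have hτn := fun φ k => tau_pow_norm A s f R hpoly hf K hK φ k
  -- the small parameter
  set δ : ℝ := (κ - 2) / (4 * (K ^ 2 + 1)) with hδ
  have hδ0 : 0 < δ := by
    apply div_pos <;> [linarith; positivity]
  have hδK : 2 * (K ^ 2 * δ) < κ - 2 := by
    have h1 : 4 * (K ^ 2 + 1) * δ = κ - 2 := by
      rw [hδ]; field_simp
    nlinarith [sq_nonneg K]
  obtain ⟨n, hn⟩ := exists_pow_lt_of_lt_one hδ0 (y := κ⁻¹) (by
    rw [inv_lt_one₀ hκ0]; linarith)
  have hn1 : κ⁻¹ ^ (n + 1) ≤ δ := by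
    rw [pow_succ]
    have h1 : κ⁻¹ ≤ 1 := by
      rw [inv_le_one₀ hκ0]; linarith
    have h2 : 0 ≤ κ⁻¹ ^ n := by positivity
    nlinarith
  set η : ℝ := δ ^ 2 / (2 * L) with hη
  have hL0 : 0 < L := by linarith
  have hη0 : 0 < η := by positivity
  obtain ⟨r, ⟨x, hx1, rfl⟩, hr⟩ := exists_lt_of_lt_csSup hVne (show L - η < sSup V by linarith)
  set S : H →L[ℂ] H := ∑ i, star (T i) * T i with hS
  have hSv : ∀ u v : H, inner ℂ v (S u) = ∑ i, inner ℂ (T i v) (T i u) := by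
    intro u v
    rw [hS, sum_apply, inner_sum]
    refine Finset.sum_congr rfl fun i _ => ?_
    show inner ℂ v (star (T i) (T i u)) = _
    rw [ContinuousLinearMap.star_eq_adjoint, ContinuousLinearMap.adjoint_inner_right]
  have hSu : ∀ u v : H, inner ℂ (S u) v = ∑ i, inner ℂ (T i u) (T i v) := by
    intro u v
    rw [← inner_conj_symm, hSv, map_sum]
    refine Finset.sum_congr rfl fun i _ => ?_
    rw [inner_conj_symm]
  have hSN : (inner ℂ x (S x)).re = N x := by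
    rw [hSv, Complex.re_sum]
    refine Finset.sum_congr rfl fun i _ => ?_
    exact inner_self_eq_norm_sq (𝕜 := ℂ) _
  have hSn : ‖S x‖ ≤ L := by
    have h1 : (‖S x‖ ^ 2) ^ 2 ≤ N (S x) * N x := by
      have e1 : ‖S x‖ ^ 2 = ∑ i, (inner ℂ (T i (S x)) (T i x)).re := by
        rw [← Complex.re_sum, ← hSv]
        exact (inner_self_eq_norm_sq (𝕜 := ℂ) _).symm
      have e2 : ‖S x‖ ^ 2 ≤ ∑ i, ‖T i (S x)‖ * ‖T i x‖ := by
        rw [e1]
        refine Finset.sum_le_sum fun i _ => ?_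
        exact (Complex.re_le_norm _).trans (norm_inner_le_norm _ _)
      calc (‖S x‖ ^ 2) ^ 2 ≤ (∑ i, ‖T i (S x)‖ * ‖T i x‖) ^ 2 := by gcongr
        _ ≤ _ := Finset.sum_mul_sq_le_sq_mul_sq _ _ _
    have h2 : N (S x) * N x ≤ (L * ‖S x‖ ^ 2) * L := by
      have h3 := hNL (S x)
      have h4 := hNL x
      rw [hx1, one_pow, mul_one] at h4
      have h5 : 0 ≤ N x := Finset.sum_nonneg fun i _ => sq_nonneg _
      gcongr
    by_contra h6
    push Not at h6
    have h7 : 0 < ‖S x‖ := by linarith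
    have h8 : (‖S x‖ ^ 2) ^ 2 ≤ L ^ 2 * ‖S x‖ ^ 2 := by nlinarith
    have h9 : ‖S x‖ ^ 2 ≤ L ^ 2 := by
      have : ‖S x‖ ^ 2 * ‖S x‖ ^ 2 ≤ L ^ 2 * ‖S x‖ ^ 2 := by nlinarith
      exact le_of_mul_le_mul_right this (by positivity)
    nlinarith
  set e : H := S x - ((L : ℝ) : ℂ) • x with he
  have hen : ‖e‖ ≤ δ := by
    have h1 : ‖e‖ ^ 2 = ‖S x‖ ^ 2 - 2 * (L * N x) + L ^ 2 := by
      rw [he, norm_sub_sq (𝕜 := ℂ), inner_smul_right, norm_smul, Complex.norm_real,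
        Real.norm_of_nonneg hL0.le, hx1, mul_one]
      congr 3
      rw [RCLike.re_eq_complex_re, Complex.re_ofReal_mul, ← hSN]
      congr 1
      exact inner_re_symm (𝕜 := ℂ) _ _
    have h2 : ‖S x‖ ^ 2 ≤ L ^ 2 := by gcongr
    have h3 : ‖e‖ ^ 2 ≤ δ ^ 2 := by
      have h4 : 2 * L * η = δ ^ 2 := by rw [hη]; field_simp
      nlinarith
    exact abs_le_of_sq_le_sq' h3 hδ0.le |>.2
  have hNx : N x ≤ L := by
    have := hNL x
    rwa [hx1, one_pow, mul_one] at this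
  have hSx : S x = ((L : ℝ) : ℂ) • x + e := by rw [he]; abel
  -- the integrals
  set a : ℕ → ℝ := fun k => (inner ℂ x (EE A f k x)).re with ha
  have hcτ := fun k => tau_pow_continuous A s f hs k
  have hsc : ∀ i, Continuous fun φ => (f i).eval (s φ) := fun i => by fun_prop
  have hR0 : ∀ v u : H, ∫ φ in (0 : ℝ)..(2 * Real.pi), (inner ℂ v (R φ u)).re =
      2 * Real.pi * (inner ℂ v u).re := by
    intro v u
    have h1 := hpoly 1
    simp only [eval_one, one_smul, map_one] at h1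
    rw [re_int R hR v u, h1, smul_apply, one_apply_eq_self, inner_smul_right,
      Complex.re_ofReal_mul]
  have hEn : ∀ k, ‖EE A f k‖ ≤ 2 * Real.pi * K ^ 2 := by
    intro k
    have h1 := int_mul A s f hs R hR hpoly k 1
    simp only [eval_one, one_smul, map_one, one_mul] at h1
    rw [← h1]
    have h2 := intervalIntegral.norm_integral_le_of_norm_le_const (a := (0 : ℝ))
      (b := 2 * Real.pi) (f := fun φ => R φ * tau A s f φ ^ k) (C := K ^ 2) (fun φ hφ => by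
        refine (norm_mul_le _ _).trans ?_
        rw [sq]
        exact mul_le_mul (hK φ (uIoc_subset_uIcc hφ)) (hτn φ k) (norm_nonneg _) hK0)
    rw [sub_zero, abs_of_pos hπ] at h2
    linarith
  have hpt := fun φ => pointwise (R φ) (hRe φ) T (fun i => hcomm φ (f i))
    (fun i => (f i).eval (s φ)) (hf φ) κ (by linarith) (tau A s f φ) rfl x n
  have c1 : Continuous fun φ => κ⁻¹ ^ 2 * ∑ i, (inner ℂ (T i x) (R φ (T i x))).re := by
    refine continuous_const.mul (continuous_finsetSum _ fun i _ => ?_)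
    exact Complex.continuous_re.comp (by fun_prop)
  have c2 : ∀ k i, Continuous fun φ =>
      (inner ℂ (T i x) (((f i).eval (s φ) • (R φ * tau A s f φ ^ k)) x)).re := by
    intro k i
    have h1 := hcτ k
    have h2 := hsc i
    exact Complex.continuous_re.comp (by fun_prop)
  have c2' : Continuous fun φ => κ⁻¹ * ∑ k ∈ Finset.range (n + 1), (κ⁻¹) ^ k *
      ∑ i, (inner ℂ (T i x) (((f i).eval (s φ) • (R φ * tau A s f φ ^ k)) x)).re := by
    refine continuous_const.mul (continuous_finsetSum _ fun k _ => ?_)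
    exact continuous_const.mul (continuous_finsetSum _ fun i _ => c2 k i)
  have c3 : Continuous fun φ => (κ⁻¹) ^ (n + 1) *
      (inner ℂ ((tau A s f φ ^ (n + 1)) x) (R φ x)).re := by
    have h1 := hcτ (n + 1)
    exact continuous_const.mul (Complex.continuous_re.comp (by fun_prop))
  have c4 : Continuous fun φ => (inner ℂ x (R φ x)).re :=
    Complex.continuous_re.comp (by fun_prop)
  have c5 : ∀ k, Continuous fun φ => (κ⁻¹) ^ (k + 1) *
      (inner ℂ x ((R φ * tau A s f φ ^ (k + 1)) x)).re := by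
    intro k
    have h1 := hcτ (k + 1)
    exact continuous_const.mul (Complex.continuous_re.comp (by fun_prop))
  have c6 : ∀ k, Continuous fun φ => (κ⁻¹) ^ (k + 1) *
      (inner ℂ ((tau A s f φ ^ (k + 1)) x) (R φ ((tau A s f φ ^ (k + 1)) x))).re := by
    intro k
    have h1 := hcτ (k + 1)
    exact continuous_const.mul (Complex.continuous_re.comp (by fun_prop))
  have c5' : Continuous fun φ => ∑ k ∈ Finset.range n, (κ⁻¹) ^ (k + 1) *
      (inner ℂ x ((R φ * tau A s f φ ^ (k + 1)) x)).re :=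
    continuous_finsetSum (Finset.range n) fun k _ => c5 k
  have c6' : Continuous fun φ => (κ - 1)⁻¹ * ∑ k ∈ Finset.range n, (κ⁻¹) ^ (k + 1) *
      (inner ℂ ((tau A s f φ ^ (k + 1)) x) (R φ ((tau A s f φ ^ (k + 1)) x))).re :=
    continuous_const.mul (continuous_finsetSum (Finset.range n) fun k _ => c6 k)
  have hmain := intervalIntegral.integral_nonneg (μ := volume) hπ.le (fun φ _ => hpt φ)
  rw [int6 c1 c2' c3 c4 c5' c6'] at hmain
  have c1i : ∀ i, Continuous fun φ => (inner ℂ (T i x) (R φ (T i x))).re := fun i =>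
    Complex.continuous_re.comp (by fun_prop)
  have c2k : ∀ k, Continuous fun φ => (κ⁻¹) ^ k *
      ∑ i, (inner ℂ (T i x) (((f i).eval (s φ) • (R φ * tau A s f φ ^ k)) x)).re := fun k =>
    continuous_const.mul (continuous_finsetSum _ fun i _ => c2 k i)
  have I1 : ∫ φ in (0 : ℝ)..(2 * Real.pi), κ⁻¹ ^ 2 * ∑ i, (inner ℂ (T i x) (R φ (T i x))).re =
      κ⁻¹ ^ 2 * (2 * Real.pi * N x) := by
    rw [intervalIntegral.integral_const_mul, intervalIntegral.integral_finsetSum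
      (fun i _ => (c1i i).intervalIntegrable _ _)]
    congr 1
    simp only [hN]
    rw [Finset.mul_sum]
    refine Finset.sum_congr rfl fun i _ => ?_
    rw [hR0]
    congr 1
    exact inner_self_eq_norm_sq (𝕜 := ℂ) _
  have I2 : ∫ φ in (0 : ℝ)..(2 * Real.pi), κ⁻¹ * ∑ k ∈ Finset.range (n + 1), (κ⁻¹) ^ k *
      ∑ i, (inner ℂ (T i x) (((f i).eval (s φ) • (R φ * tau A s f φ ^ k)) x)).re =
      κ⁻¹ * ∑ k ∈ Finset.range (n + 1), (κ⁻¹) ^ k * (L * a k + (inner ℂ e (EE A f k x)).re) := by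
    rw [intervalIntegral.integral_const_mul, intervalIntegral.integral_finsetSum
      (fun k _ => (c2k k).intervalIntegrable _ _)]
    congr 1
    refine Finset.sum_congr rfl fun k _ => ?_
    rw [intervalIntegral.integral_const_mul, intervalIntegral.integral_finsetSum
      (fun i _ => (c2 k i).intervalIntegrable _ _)]
    congr 1
    have h1 : ∀ i, ∫ φ in (0 : ℝ)..(2 * Real.pi),
        (inner ℂ (T i x) (((f i).eval (s φ) • (R φ * tau A s f φ ^ k)) x)).re =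
        (inner ℂ (T i x) (T i (EE A f k x))).re := fun i =>
      re_int_tau A s f hs R hR hpoly k (f i) (T i x) x
    simp only [h1]
    rw [← Complex.re_sum, ← hSu, hSx, inner_add_left, Complex.add_re, inner_smul_left,
      Complex.conj_ofReal, Complex.re_ofReal_mul]
  have I3 : -(κ⁻¹ ^ (n + 1) * (2 * Real.pi * K ^ 2)) ≤ ∫ φ in (0 : ℝ)..(2 * Real.pi),
      (κ⁻¹) ^ (n + 1) * (inner ℂ ((tau A s f φ ^ (n + 1)) x) (R φ x)).re := by
    rw [intervalIntegral.integral_const_mul, ← mul_neg]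
    apply mul_le_mul_of_nonneg_left _ (by positivity)
    have h2 := intervalIntegral.norm_integral_le_of_norm_le_const (a := (0 : ℝ))
      (b := 2 * Real.pi) (f := fun φ => (inner ℂ ((tau A s f φ ^ (n + 1)) x) (R φ x)).re)
      (C := K ^ 2) (fun φ hφ => by
        rw [Real.norm_eq_abs]
        refine (Complex.abs_re_le_norm _).trans ((norm_inner_le_norm _ _).trans ?_)
        rw [sq]
        apply mul_le_mul _ _ (norm_nonneg _) hK0
        · refine ((tau A s f φ ^ (n + 1)).le_opNorm x).trans ?_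
          rw [hx1, mul_one]
          exact hτn φ (n + 1)
        · refine ((R φ).le_opNorm x).trans ?_
          rw [hx1, mul_one]
          exact hK φ (uIoc_subset_uIcc hφ))
    rw [sub_zero, abs_of_pos hπ, Real.norm_eq_abs] at h2
    have := (abs_le.mp h2).1
    linarith
  have I4 : ∫ φ in (0 : ℝ)..(2 * Real.pi), (inner ℂ x (R φ x)).re = 2 * Real.pi := by
    rw [hR0]
    have : (inner ℂ x x).re = ‖x‖ ^ 2 := inner_self_eq_norm_sq (𝕜 := ℂ) x
    rw [this, hx1, one_pow, mul_one]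
  have I5 : ∫ φ in (0 : ℝ)..(2 * Real.pi), ∑ k ∈ Finset.range n, (κ⁻¹) ^ (k + 1) *
      (inner ℂ x ((R φ * tau A s f φ ^ (k + 1)) x)).re =
      ∑ k ∈ Finset.range n, (κ⁻¹) ^ (k + 1) * a (k + 1) := by
    rw [intervalIntegral.integral_finsetSum (fun k _ => (c5 k).intervalIntegrable _ _)]
    refine Finset.sum_congr rfl fun k _ => ?_
    rw [intervalIntegral.integral_const_mul]
    congr 1
    have := re_int_tau A s f hs R hR hpoly (k + 1) 1 x x
    simp only [eval_one, one_smul, map_one, one_apply_eq_self] at this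
    exact this
  have hQa : ∀ k, ∫ φ in (0 : ℝ)..(2 * Real.pi),
      (inner ℂ ((tau A s f φ ^ k) x) (R φ ((tau A s f φ ^ k) x))).re ≤ a k := fun k =>
    Q_tau_le A s f hs R hR hRe hpoly hf k x
  have ha0 : ∀ k, 0 ≤ a k := fun k =>
    (intervalIntegral.integral_nonneg hπ.le (fun φ _ => hRe φ _)).trans (hQa k)
  have I6 : ∫ φ in (0 : ℝ)..(2 * Real.pi), (κ - 1)⁻¹ * ∑ k ∈ Finset.range n, (κ⁻¹) ^ (k + 1) *
      (inner ℂ ((tau A s f φ ^ (k + 1)) x) (R φ ((tau A s f φ ^ (k + 1)) x))).re ≤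
      (κ - 1)⁻¹ * ∑ k ∈ Finset.range n, (κ⁻¹) ^ (k + 1) * a (k + 1) := by
    rw [intervalIntegral.integral_const_mul, intervalIntegral.integral_finsetSum
      (fun k _ => (c6 k).intervalIntegrable _ _)]
    apply mul_le_mul_of_nonneg_left _ (inv_nonneg.mpr (by linarith))
    refine Finset.sum_le_sum fun k _ => ?_
    rw [intervalIntegral.integral_const_mul]
    exact mul_le_mul_of_nonneg_left (hQa (k + 1)) (by positivity)
  set P : ℝ := ∑ k ∈ Finset.range n, (κ⁻¹) ^ (k + 1) * a (k + 1) with hP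
  have hP0 : 0 ≤ P := Finset.sum_nonneg fun k _ => mul_nonneg (by positivity) (ha0 _)
  have haz : a 0 = 2 * Real.pi := by
    simp only [ha, EE]
    rw [smul_apply, one_apply_eq_self, inner_smul_right, Complex.re_ofReal_mul]
    have : (inner ℂ x x).re = ‖x‖ ^ 2 := inner_self_eq_norm_sq (𝕜 := ℂ) x
    rw [this, hx1, one_pow, mul_one]
  have hsum : ∑ k ∈ Finset.range (n + 1), (κ⁻¹) ^ k * a k = 2 * Real.pi + P := by
    rw [Finset.sum_range_succ', pow_zero, one_mul, haz, add_comm]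
  have herr : |∑ k ∈ Finset.range (n + 1), (κ⁻¹) ^ k * (inner ℂ e (EE A f k x)).re| ≤
      2 * (δ * (2 * Real.pi * K ^ 2)) := by
    have g1 : ∑ k ∈ Finset.range (n + 1), (κ⁻¹) ^ k ≤ 2 := by
      rw [Finset.sum_range_succ', pow_zero]
      have h1 := geom_le κ (by linarith) n
      have h2 : (κ - 1)⁻¹ ≤ 1 := inv_le_one_of_one_le₀ (by linarith)
      linarith
    calc |∑ k ∈ Finset.range (n + 1), (κ⁻¹) ^ k * (inner ℂ e (EE A f k x)).re|
        ≤ ∑ k ∈ Finset.range (n + 1), |(κ⁻¹) ^ k * (inner ℂ e (EE A f k x)).re| :=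
          Finset.abs_sum_le_sum_abs _ _
      _ ≤ ∑ k ∈ Finset.range (n + 1), (κ⁻¹) ^ k * (δ * (2 * Real.pi * K ^ 2)) := by
          refine Finset.sum_le_sum fun k _ => ?_
          rw [abs_mul, abs_of_nonneg (by positivity : (0 : ℝ) ≤ (κ⁻¹) ^ k)]
          apply mul_le_mul_of_nonneg_left _ (by positivity)
          refine (Complex.abs_re_le_norm _).trans ((norm_inner_le_norm _ _).trans ?_)
          apply mul_le_mul hen _ (norm_nonneg _) hδ0.le
          refine ((EE A f k).le_opNorm x).trans ?_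
          rw [hx1, mul_one]
          exact hEn k
      _ = (∑ k ∈ Finset.range (n + 1), (κ⁻¹) ^ k) * (δ * (2 * Real.pi * K ^ 2)) := by
          rw [Finset.sum_mul]
      _ ≤ _ := mul_le_mul_of_nonneg_right g1 (by positivity)
  rw [I1, I2, I4, I5] at hmain
  have e5 : ∑ k ∈ Finset.range (n + 1), (κ⁻¹) ^ k * (L * a k + (inner ℂ e (EE A f k x)).re) =
      L * (2 * Real.pi + P) +
        ∑ k ∈ Finset.range (n + 1), (κ⁻¹) ^ k * (inner ℂ e (EE A f k x)).re := by
    rw [← hsum, Finset.mul_sum, ← Finset.sum_add_distrib]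
    refine Finset.sum_congr rfl fun k _ => ?_
    ring
  rw [e5] at hmain
  set E2 : ℝ := ∑ k ∈ Finset.range (n + 1), (κ⁻¹) ^ k * (inner ℂ e (EE A f k x)).re with hE2
  have hκL' : κ⁻¹ * (L * (2 * Real.pi + P) + E2) = κ * (2 * Real.pi + P) + κ⁻¹ * E2 := by
    rw [← hκL]; field_simp
  have hE2' : -(δ * (2 * Real.pi * K ^ 2)) ≤ κ⁻¹ * E2 := by
    have h1 : |κ⁻¹ * E2| ≤ 2⁻¹ * (2 * (δ * (2 * Real.pi * K ^ 2))) := by
      rw [abs_mul, abs_of_pos (inv_pos.mpr hκ0)]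
      apply mul_le_mul _ herr (abs_nonneg _) (by norm_num)
      exact inv_anti₀ (by norm_num) hκ2.le
    have := (abs_le.mp h1).1
    linarith
  have hN1 : κ⁻¹ ^ 2 * (2 * Real.pi * N x) ≤ 2 * Real.pi := by
    have h1 : κ⁻¹ ^ 2 * (2 * Real.pi * N x) ≤ κ⁻¹ ^ 2 * (2 * Real.pi * L) := by gcongr
    have h2 : κ⁻¹ ^ 2 * (2 * Real.pi * L) = 2 * Real.pi := by
      rw [← hκL]; field_simp
    linarith
  have h3' : κ⁻¹ ^ (n + 1) * (2 * Real.pi * K ^ 2) ≤ δ * (2 * Real.pi * K ^ 2) := by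
    gcongr
  have hfinal : P * (1 + (κ - 1)⁻¹ - κ) ≤ 0 := by
    apply mul_nonpos_of_nonneg_of_nonpos hP0
    have h2 : (κ - 1)⁻¹ ≤ 1 := inv_le_one_of_one_le₀ (by linarith)
    linarith
  have hπK : 2 * Real.pi * (2 * (K ^ 2 * δ)) < 2 * Real.pi * (κ - 2) := by
    gcongr
  rw [hκL'] at hmain
  linarith

end Pool.Agent.KS6_83.CZ
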