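import Pool.Agent.KS6_83.CZ.ColCurve

set_option autoImplicit false

open MeasureTheory Set Filter Topology Polynomial
open Pool.Agent.W753.CZ

namespace Pool.Agent.KS6_83.CZ

variable {H : Type*} [NormedAddCommGroup H] [InnerProductSpace ℂ H] [CompleteSpace H]
variable {ι : Type*} [Fintype ι]

theorem col_curve (A : H →L[ℂ] H) (Hf H1 H2 : ℝ → ℝ) (h1 : ∀ φ, HasDerivAt Hf (H1 φ) φ)
    (h2 : ∀ φ, HasDerivAt H1 (H2 φ) φ) (h2c : Continuous H2) (hp0 : Hf (2 * Real.pi) = Hf 0)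
    (hp1 : H1 (2 * Real.pi) = H1 0) (hρ : ∀ φ, 0 ≤ Hf φ + H2 φ) (c : ℝ) (hc : 0 < c)
    (hcoer : ∀ (φ : ℝ) (u : H), (Complex.exp (-φ * Complex.I) * inner ℂ u (A u)).re ≤
      (Hf φ - c) * ‖u‖ ^ 2)
    (f : ι → ℂ[X]) (M : ℝ) (hM0 : 0 < M)
    (hM : ∀ φ, ∑ i, ‖(f i).eval (sg Hf H1 φ)‖ ^ 2 ≤ M ^ 2) (x : H) :
    ∑ i, ‖aeval A (f i) x‖ ^ 2 ≤ 4 * M ^ 2 * ‖x‖ ^ 2 := by
  obtain ⟨hsc, R, hRc, hRe, hcomm, hpoly⟩ :=
    curve_rep A Hf H1 H2 h1 h2 h2c hp0 hp1 hρ c hc hcoer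
  have h3 := col_abs A (sg Hf H1) (fun i => C ((M : ℂ)⁻¹) * f i) hsc R hRc hRe hcomm hpoly
    (fun φ => by
      have e1 : ∀ i, ‖(C ((M : ℂ)⁻¹) * f i).eval (sg Hf H1 φ)‖ ^ 2 =
          (M ^ 2)⁻¹ * ‖(f i).eval (sg Hf H1 φ)‖ ^ 2 := by
        intro i
        rw [eval_mul, eval_C, norm_mul, norm_inv, Complex.norm_real, Real.norm_eq_abs, mul_pow,
          inv_pow, sq_abs]
      simp only [e1]
      rw [← Finset.mul_sum, inv_mul_le_iff₀ (by positivity), mul_one]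
      exact hM φ) x
  have e2 : ∀ i, ‖aeval A (C ((M : ℂ)⁻¹) * f i) x‖ ^ 2 = (M ^ 2)⁻¹ * ‖aeval A (f i) x‖ ^ 2 := by
    intro i
    rw [map_mul, aeval_C, Algebra.algebraMap_eq_smul_one, smul_mul_assoc, one_mul,
      smul_apply, norm_smul, norm_inv, Complex.norm_real, Real.norm_eq_abs,
      mul_pow, inv_pow, sq_abs]
  simp only [e2] at h3
  rw [← Finset.mul_sum, inv_mul_le_iff₀ (by positivity)] at h3
  linarith

/-- **Column version of Crouzeix's conjecture** for bounded operators on a Hilbert space. -/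
theorem col_hilbert (A : H →L[ℂ] H) (f : ι → ℂ[X]) (B : ℝ)
    (hB : ∀ w ∈ numRange A, ∑ i, ‖(f i).eval w‖ ^ 2 ≤ B) (x : H) :
    ∑ i, ‖aeval A (f i) x‖ ^ 2 ≤ 4 * B * ‖x‖ ^ 2 := by
  rcases subsingleton_or_nontrivial H with hsub | hnt
  · have hx : x = 0 := Subsingleton.elim _ _
    simp [hx]
  set W := numRange A with hWd
  set R := ‖A‖ with hR
  have hR0 : 0 ≤ R := norm_nonneg _
  have hW : ∀ w ∈ W, ‖w‖ ≤ R := numRange_norm A
  have hne : W.Nonempty := numRange_nonempty A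
  have hconv : Convex ℝ W := H640R2.PhaseMu.toeplitz_hausdorff A
  have hB0 : 0 ≤ B := by
    obtain ⟨w, hw⟩ := hne
    exact (Finset.sum_nonneg fun i _ => sq_nonneg _).trans (hB w hw)
  obtain ⟨hb, hL, hper, hcos⟩ := supp_props hW hne
  have hnum : ∀ (φ : ℝ) (u : H), (Complex.exp (-φ * Complex.I) * inner ℂ u (A u)).re ≤
      supp W φ * ‖u‖ ^ 2 := by
    intro φ u
    by_cases hu : u = 0
    · simp [hu]
    have hn : ‖u‖ ≠ 0 := norm_ne_zero_iff.mpr hu
    set x : H := ((‖u‖⁻¹ : ℝ) : ℂ) • u with hx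
    have hx1 : ‖x‖ = 1 := by
      rw [hx, norm_smul, Complex.norm_real, norm_inv, norm_norm, inv_mul_cancel₀ hn]
    have h1 := le_supp hW φ (w := inner ℂ x (A x)) ⟨x, hx1, rfl⟩
    have h2 : inner ℂ x (A x) = (((‖u‖⁻¹) ^ 2 : ℝ) : ℂ) * inner ℂ u (A u) := by
      rw [hx, map_smul, inner_smul_left, inner_smul_right, Complex.conj_ofReal]
      push_cast
      ring
    rw [h2, mul_left_comm, Complex.re_ofReal_mul] at h1
    have h3 : 0 < ‖u‖ ^ 2 := by positivity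
    calc (Complex.exp (-φ * Complex.I) * inner ℂ u (A u)).re =
        ((‖u‖⁻¹) ^ 2 * (Complex.exp (-φ * Complex.I) * inner ℂ u (A u)).re) * ‖u‖ ^ 2 := by
          field_simp
      _ ≤ supp W φ * ‖u‖ ^ 2 := by gcongr
  set G : ℂ → ℝ := fun z => ∑ i, ‖(f i).eval z‖ ^ 2 with hG
  have hGc : Continuous G := by
    rw [hG]; fun_prop
  refine le_of_forall_pos_le_add fun ε' hε' => ?_
  set ε : ℝ := ε' / (4 * ‖x‖ ^ 2 + 1) with hεd
  have hε : 0 < ε := by positivity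
  set B' := B + ε with hB'
  have hB'0 : 0 < B' := by positivity
  have hU : IsOpen {z : ℂ | G z < B'} := isOpen_lt hGc continuous_const
  have hK : IsCompact (closure W) := by
    apply Metric.isCompact_of_isClosed_isBounded isClosed_closure
    apply Bornology.IsBounded.closure
    rw [isBounded_iff_forall_norm_le]
    exact ⟨R, hW⟩
  have hsub : closure W ⊆ {z : ℂ | G z < B'} := by
    have h1 : closure W ⊆ {z : ℂ | G z ≤ B} :=
      closure_minimal hB (isClosed_le hGc continuous_const)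
    intro z hz
    have : G z ≤ B := h1 hz
    show G z < B'
    linarith
  obtain ⟨η, hη, hηs⟩ := hK.exists_cthickening_subset_open hU hsub
  rw [Metric.cthickening_closure] at hηs
  set δ := min 1 (η / (6 * R + 1)) with hδ
  have hδ0 : 0 < δ := lt_min one_pos (by positivity)
  have hδ1 : δ ≤ 1 := min_le_left _ _
  have hδη : (6 * R + 1) * δ ≤ η := by
    have : δ ≤ η / (6 * R + 1) := min_le_right _ _
    rw [le_div_iff₀ (by positivity)] at this
    linarith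
  obtain ⟨Hf, H1, H2, h1, h2, h2c, hp0, hp1, hρ, hlow, hup⟩ :=
    smooth_support (supp W) R hR0 hb hL hper hcos δ hδ0 hδ1
  have hev : ∀ φ, G (sg Hf H1 φ) ≤ B' := by
    intro φ
    have hnear : Metric.infDist (sg Hf H1 φ) W ≤ η := by
      apply near_convex hW hne hconv _ hη.le
      intro ψ
      have := curve_support Hf H1 H2 h1 h2 hp0 hρ φ ψ
      linarith [hup ψ]
    have hmem : sg Hf H1 φ ∈ Metric.cthickening η W := by
      rw [Metric.mem_cthickening_iff]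
      rw [← ENNReal.ofReal_toReal (Metric.infEDist_ne_top hne)]
      exact ENNReal.ofReal_le_ofReal hnear
    exact (hηs hmem).le
  have hsq : Real.sqrt B' ^ 2 = B' := Real.sq_sqrt hB'0.le
  have := col_curve A Hf H1 H2 h1 h2 h2c (by have := hp0 0; rwa [zero_add] at this)
    (by have := hp1 0; rwa [zero_add] at this) hρ ((2 * R + 1) * δ) (by positivity)
    (fun φ u => by
      refine (hnum φ u).trans ?_
      gcongr
      linarith [hlow φ]) f (Real.sqrt B') (Real.sqrt_pos.mpr hB'0) (by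
        intro φ
        rw [hsq]
        exact hev φ) x
  rw [hsq] at this
  calc ∑ i, ‖aeval A (f i) x‖ ^ 2 ≤ 4 * B' * ‖x‖ ^ 2 := this
    _ = 4 * B * ‖x‖ ^ 2 + ε * (4 * ‖x‖ ^ 2) := by rw [hB']; ring
    _ ≤ 4 * B * ‖x‖ ^ 2 + ε * (4 * ‖x‖ ^ 2 + 1) := by gcongr; linarith
    _ = 4 * B * ‖x‖ ^ 2 + ε' := by rw [hεd]; field_simp

end Pool.Agent.KS6_83.CZ
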