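import Mathlib

set_option autoImplicit false

open Set Filter Topology Polynomial

/-!
# An extremal problem for matrices of polynomials of an operator
-/

namespace Pool.Agent.KS6_83.CZ

variable {H : Type*} [NormedAddCommGroup H] [InnerProductSpace ℂ H]
variable {ι κ : Type*} [Fintype ι] [Fintype κ]

/-- the matrix of polynomials `F` is a contraction at all points of `Ω` -/
def Ctr (F : ι → κ → ℂ[X]) (Ω : Set ℂ) : Prop :=
  ∀ w ∈ Ω, ∀ v : κ → ℂ, ∑ i, ‖∑ j, (F i j).eval w * v j‖ ^ 2 ≤ ∑ j, ‖v j‖ ^ 2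

/-- squared norm of the image of the tuple `x` -/
def nsq (t : ι → κ → H →L[ℂ] H) (x : κ → H) : ℝ := ∑ i, ‖∑ j, t i j (x j)‖ ^ 2

/-- the matrices `F(A)`, `F` contractive on `Ω` -/
def VV (A : H →L[ℂ] H) (Ω : Set ℂ) : Set (ι → κ → H →L[ℂ] H) :=
  {t | ∃ F : ι → κ → ℂ[X], Ctr F Ω ∧ t = fun i j => aeval A (F i j)}

section var
variable [DecidableEq ι] [DecidableEq κ]

/-- the variation `F - ε + F ε^* F`, `ε = c E_{i₀ j₀}`, at a point -/
theorem var_point (M : ι → κ → ℂ)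
    (hM : ∀ v : κ → ℂ, ∑ i, ‖∑ j, M i j * v j‖ ^ 2 ≤ ∑ j, ‖v j‖ ^ 2) (i₀ : ι) (j₀ : κ) (c : ℂ)
    (v : κ → ℂ) :
    ∑ i, ‖∑ j, (M i j - (if i = i₀ ∧ j = j₀ then c else 0) +
      (starRingEnd ℂ) c * (M i j₀ * M i₀ j)) * v j‖ ^ 2 ≤ (1 + 4 * ‖c‖ ^ 2) * ∑ j, ‖v j‖ ^ 2 := by
  set a : ι → ℂ := fun i => ∑ j, M i j * v j with ha
  set β : ℂ := (starRingEnd ℂ) c * a i₀ with hβ
  set S : ℝ := ∑ j, ‖v j‖ ^ 2 with hS
  have hS0 : 0 ≤ S := Finset.sum_nonneg fun j _ => sq_nonneg _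
  have e1 : ∀ i, ∑ j, (M i j - (if i = i₀ ∧ j = j₀ then c else 0) +
      (starRingEnd ℂ) c * (M i j₀ * M i₀ j)) * v j =
      (a i + M i j₀ * β) - (if i = i₀ then c * v j₀ else 0) := by
    intro i
    have h1 : ∀ j, (M i j - (if i = i₀ ∧ j = j₀ then c else 0) +
      (starRingEnd ℂ) c * (M i j₀ * M i₀ j)) * v j =
      M i j * v j - (if i = i₀ ∧ j = j₀ then c else 0) * v j +
        (starRingEnd ℂ) c * M i j₀ * (M i₀ j * v j) := fun j => by ring
    simp only [h1]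
    rw [Finset.sum_add_distrib, Finset.sum_sub_distrib, ← Finset.mul_sum]
    have h2 : ∑ j, (if i = i₀ ∧ j = j₀ then c else 0) * v j = if i = i₀ then c * v j₀ else 0 := by
      by_cases hi : i = i₀
      · simp [hi]
      · simp [hi]
    rw [h2, hβ]
    simp only [ha]
    ring
  simp only [e1]
  -- contractivity on `v + β e_{j₀}`
  have h3 := hM (fun j => v j + if j = j₀ then β else 0)
  have e2 : ∀ i, ∑ j, M i j * (v j + if j = j₀ then β else 0) = a i + M i j₀ * β := by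
    intro i
    simp only [mul_add, Finset.sum_add_distrib, mul_ite, mul_zero, Finset.sum_ite_eq',
      Finset.mem_univ, if_true]
    rfl
  have e3 : ∑ j, ‖v j + if j = j₀ then β else 0‖ ^ 2 =
      S + 2 * (v j₀ * (starRingEnd ℂ) β).re + ‖β‖ ^ 2 := by
    have h4 : ∀ j, ‖v j + if j = j₀ then β else 0‖ ^ 2 =
        ‖v j‖ ^ 2 + if j = j₀ then (2 * (v j₀ * (starRingEnd ℂ) β).re + ‖β‖ ^ 2) else 0 := by
      intro j
      by_cases hj : j = j₀
      · subst hj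
        simp only [if_true]
        rw [← Complex.normSq_eq_norm_sq, Complex.normSq_add, Complex.normSq_eq_norm_sq,
          Complex.normSq_eq_norm_sq]
        ring
      · simp [hj]
    simp only [h4]
    rw [Finset.sum_add_distrib, Finset.sum_ite_eq']
    simp only [Finset.mem_univ, if_true]
    ring
  simp only [e2] at h3
  rw [e3] at h3
  have e4 : ∀ i, ‖(a i + M i j₀ * β) - (if i = i₀ then c * v j₀ else 0)‖ ^ 2 =
      ‖a i + M i j₀ * β‖ ^ 2 + if i = i₀ then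
        (‖c * v j₀‖ ^ 2 - 2 * ((a i₀ + M i₀ j₀ * β) * (starRingEnd ℂ) (c * v j₀)).re) else 0 := by
    intro i
    by_cases hi : i = i₀
    · subst hi
      simp only [if_true]
      rw [← Complex.normSq_eq_norm_sq, Complex.normSq_sub, Complex.normSq_eq_norm_sq,
        Complex.normSq_eq_norm_sq]
      ring
    · simp [hi]
  simp only [e4]
  rw [Finset.sum_add_distrib, Finset.sum_ite_eq']
  simp only [Finset.mem_univ, if_true]
  -- the cross terms cancel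
  have e5 : ((a i₀ + M i₀ j₀ * β) * (starRingEnd ℂ) (c * v j₀)).re =
      (v j₀ * (starRingEnd ℂ) β).re + (M i₀ j₀ * β * (starRingEnd ℂ) (c * v j₀)).re := by
    have h5 : (v j₀ * (starRingEnd ℂ) β).re = (a i₀ * (starRingEnd ℂ) (c * v j₀)).re := by
      rw [← Complex.conj_re, hβ]
      simp only [map_mul, Complex.conj_conj]
      congr 1
      ring
    rw [h5, add_mul, Complex.add_re]
  rw [e5]
  -- bounds
  have ha1 : ‖a i₀‖ ^ 2 ≤ S := by
    refine le_trans ?_ (hM v)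
    exact Finset.single_le_sum (f := fun i => ‖∑ j, M i j * v j‖ ^ 2)
      (fun i _ => sq_nonneg _) (Finset.mem_univ i₀)
  have hv1 : ‖v j₀‖ ^ 2 ≤ S :=
    Finset.single_le_sum (f := fun j => ‖v j‖ ^ 2) (fun j _ => sq_nonneg _) (Finset.mem_univ j₀)
  have hm1 : ‖M i₀ j₀‖ ≤ 1 := by
    have h6 := hM (fun j => if j = j₀ then 1 else 0)
    have h7 : ‖M i₀ j₀‖ ^ 2 ≤ ∑ i, ‖∑ j, M i j * (if j = j₀ then 1 else 0)‖ ^ 2 := by
      refine le_trans (le_of_eq ?_) (Finset.single_le_sum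
        (f := fun i => ‖∑ j, M i j * (if j = j₀ then 1 else 0)‖ ^ 2)
        (fun i _ => sq_nonneg _) (Finset.mem_univ i₀))
      simp
    have h8 : ∑ j, ‖(if j = j₀ then (1 : ℂ) else 0)‖ ^ 2 = 1 := by
      have : ∀ j, ‖(if j = j₀ then (1 : ℂ) else 0)‖ ^ 2 = if j = j₀ then (1 : ℝ) else 0 := by
        intro j; by_cases hj : j = j₀ <;> simp [hj]
      simp only [this]
      simp
    rw [h8] at h6
    have h9 := h7.trans h6
    nlinarith [norm_nonneg (M i₀ j₀)]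
  have hβn : ‖β‖ = ‖c‖ * ‖a i₀‖ := by rw [hβ, norm_mul, RCLike.norm_conj]
  have hcv : ‖c * v j₀‖ = ‖c‖ * ‖v j₀‖ := norm_mul _ _
  have h10 : -(M i₀ j₀ * β * (starRingEnd ℂ) (c * v j₀)).re ≤ ‖β‖ * ‖c * v j₀‖ := by
    have h11 := (abs_le.mp (Complex.abs_re_le_norm (M i₀ j₀ * β * (starRingEnd ℂ) (c * v j₀)))).1
    have h12 : ‖M i₀ j₀ * β * (starRingEnd ℂ) (c * v j₀)‖ ≤ 1 * ‖β‖ * ‖c * v j₀‖ := by
      rw [norm_mul, norm_mul, RCLike.norm_conj]
      gcongr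
    rw [one_mul] at h12
    linarith
  have h13 : ‖β‖ ^ 2 ≤ ‖c‖ ^ 2 * S := by
    rw [hβn, mul_pow]; gcongr
  have h14 : ‖c * v j₀‖ ^ 2 ≤ ‖c‖ ^ 2 * S := by
    rw [hcv, mul_pow]; gcongr
  have h15 : 2 * (‖β‖ * ‖c * v j₀‖) ≤ ‖β‖ ^ 2 + ‖c * v j₀‖ ^ 2 := by
    nlinarith [sq_nonneg (‖β‖ - ‖c * v j₀‖)]
  linarith

theorem VV_var (A : H →L[ℂ] H) (Ω : Set ℂ) (i₀ : ι) (j₀ : κ) (c : ℂ) (ρ : ℝ)
    (hρ : 0 < ρ) (hρc : 1 + 4 * ‖c‖ ^ 2 = ρ ^ 2) {t : ι → κ → H →L[ℂ] H} (ht : t ∈ VV A Ω) :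
    (fun i j => ((ρ : ℂ)⁻¹) • (t i j - (if i = i₀ ∧ j = j₀ then c else 0) • (1 : H →L[ℂ] H) +
      (starRingEnd ℂ) c • (t i j₀ * t i₀ j))) ∈ (VV A Ω : Set (ι → κ → H →L[ℂ] H)) := by
  obtain ⟨F, hF, rfl⟩ := ht
  refine ⟨fun i j => C ((ρ : ℂ)⁻¹) * (F i j - C (if i = i₀ ∧ j = j₀ then c else 0) +
    C ((starRingEnd ℂ) c) * (F i j₀ * F i₀ j)), ?_, ?_⟩
  · intro w hw v
    have h1 := var_point (fun i j => (F i j).eval w) (hF w hw) i₀ j₀ c v
    rw [hρc] at h1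
    have e1 : ∀ i, ‖∑ j, (C ((ρ : ℂ)⁻¹) * (F i j - C (if i = i₀ ∧ j = j₀ then c else 0) +
        C ((starRingEnd ℂ) c) * (F i j₀ * F i₀ j))).eval w * v j‖ ^ 2 =
        (ρ ^ 2)⁻¹ * ‖∑ j, ((F i j).eval w - (if i = i₀ ∧ j = j₀ then c else 0) +
      (starRingEnd ℂ) c * ((F i j₀).eval w * (F i₀ j).eval w)) * v j‖ ^ 2 := by
      intro i
      have : ∑ j, (C ((ρ : ℂ)⁻¹) * (F i j - C (if i = i₀ ∧ j = j₀ then c else 0) +
        C ((starRingEnd ℂ) c) * (F i j₀ * F i₀ j))).eval w * v j =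
        ((ρ : ℂ)⁻¹) * ∑ j, ((F i j).eval w - (if i = i₀ ∧ j = j₀ then c else 0) +
      (starRingEnd ℂ) c * ((F i j₀).eval w * (F i₀ j).eval w)) * v j := by
        rw [Finset.mul_sum]
        refine Finset.sum_congr rfl fun j _ => ?_
        simp only [eval_mul, eval_add, eval_sub, eval_C]
        ring
      rw [this, norm_mul, norm_inv, Complex.norm_real, Real.norm_eq_abs, mul_pow, inv_pow, sq_abs]
    simp only [e1]
    rw [← Finset.mul_sum, inv_mul_le_iff₀ (by positivity)]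
    exact h1
  · funext i j
    simp only [map_mul, map_add, map_sub, aeval_C, Algebra.algebraMap_eq_smul_one,
      smul_mul_assoc, one_mul]

end var

theorem nsq_nonneg (t : ι → κ → H →L[ℂ] H) (x : κ → H) : 0 ≤ nsq t x :=
  Finset.sum_nonneg fun _ _ => sq_nonneg _

theorem nsq_continuous :
    Continuous fun p : (ι → κ → H →L[ℂ] H) × (κ → H) => nsq p.1 p.2 := by
  unfold nsq
  fun_prop

theorem nsq_smul (t : ι → κ → H →L[ℂ] H) (c : ℂ) (x : κ → H) :
    nsq t (fun j => c • x j) = ‖c‖ ^ 2 * nsq t x := by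
  unfold nsq
  rw [Finset.mul_sum]
  refine Finset.sum_congr rfl fun i _ => ?_
  have : ∑ j, t i j (c • x j) = c • ∑ j, t i j (x j) := by
    rw [Finset.smul_sum]
    exact Finset.sum_congr rfl fun j _ => map_smul _ _ _
  rw [this, norm_smul, mul_pow]

theorem VV_bounded (A : H →L[ℂ] H) (Ω : Set ℂ)
    (hΩ : ∀ g : ℂ[X], (∀ w ∈ Ω, ‖g.eval w‖ ≤ 1) → ‖aeval A g‖ ≤ 2) :
    Bornology.IsBounded (VV A Ω : Set (ι → κ → H →L[ℂ] H)) := by
  classical
  rw [isBounded_iff_forall_norm_le]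
  refine ⟨2, ?_⟩
  rintro _ ⟨F, hF, rfl⟩
  rw [pi_norm_le_iff_of_nonneg (by norm_num)]
  intro i
  rw [pi_norm_le_iff_of_nonneg (by norm_num)]
  intro j
  apply hΩ
  intro w hw
  have h6 := hF w hw (fun k => if k = j then 1 else 0)
  have h7 : ‖(F i j).eval w‖ ^ 2 ≤
      ∑ i, ‖∑ k, (F i k).eval w * (if k = j then 1 else 0)‖ ^ 2 := by
    refine le_trans (le_of_eq ?_) (Finset.single_le_sum
      (f := fun i => ‖∑ k, (F i k).eval w * (if k = j then 1 else 0)‖ ^ 2)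
      (fun i _ => sq_nonneg _) (Finset.mem_univ i))
    simp
  have h8 : ∑ k, ‖(if k = j then (1 : ℂ) else 0)‖ ^ 2 = 1 := by
    have : ∀ k, ‖(if k = j then (1 : ℂ) else 0)‖ ^ 2 = if k = j then (1 : ℝ) else 0 := by
      intro k; by_cases hk : k = j <;> simp [hk]
    simp only [this]
    simp
  rw [h8] at h6
  have h9 := h7.trans h6
  nlinarith [norm_nonneg ((F i j).eval w)]

/-- if `2 s Re z ≤ s² b` for all small multiples then `z = 0`. -/
theorem eq_zero_of_quad (z : ℂ) (a b : ℝ) (ha : 0 < a)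
    (h : ∀ c : ℂ, a * (c * z).re ≤ ‖c‖ ^ 2 * b) : z = 0 := by
  by_contra hz
  have hz0 : 0 < ‖z‖ := norm_pos_iff.mpr hz
  have h1 : ∀ s : ℝ, 0 < s → a ≤ s * b := by
    intro s hs
    have h2 := h ((s : ℂ) * (starRingEnd ℂ) z)
    have e1 : ((s : ℂ) * (starRingEnd ℂ) z * z).re = s * ‖z‖ ^ 2 := by
      rw [mul_assoc, mul_comm ((starRingEnd ℂ) z), Complex.mul_conj, Complex.normSq_eq_norm_sq,
        ← Complex.ofReal_mul, Complex.ofReal_re]
    have e2 : ‖(s : ℂ) * (starRingEnd ℂ) z‖ ^ 2 = s ^ 2 * ‖z‖ ^ 2 := by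
      rw [norm_mul, Complex.norm_real, RCLike.norm_conj, mul_pow, Real.norm_eq_abs, sq_abs]
    rw [e1, e2] at h2
    have h3 : (s * ‖z‖ ^ 2) * a ≤ (s * ‖z‖ ^ 2) * (s * b) := by nlinarith
    exact le_of_mul_le_mul_left h3 (by positivity)
  have hb : 0 < b := by
    have := h1 1 one_pos
    linarith
  have := h1 (a / (2 * b)) (by positivity)
  have h4 : a / (2 * b) * b = a / 2 := by field_simp
  linarith

theorem ext_lemma [FiniteDimensional ℂ H] [Nontrivial H] [Nonempty κ] (A : H →L[ℂ] H)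
    (Ω : Set ℂ) (hΩ : ∀ g : ℂ[X], (∀ w ∈ Ω, ‖g.eval w‖ ≤ 1) → ‖aeval A g‖ ≤ 2) :
    ∃ K : ℝ, 0 ≤ K ∧ (∀ t ∈ closure (VV A Ω : Set (ι → κ → H →L[ℂ] H)), ∀ x : κ → H,
      nsq t x ≤ K ^ 2 * ∑ j, ‖x j‖ ^ 2) ∧
      (1 < K → ∃ t ∈ closure (VV A Ω : Set (ι → κ → H →L[ℂ] H)), ∃ x : κ → H,
        ∑ j, ‖x j‖ ^ 2 = 1 ∧ nsq t x = K ^ 2 ∧
        ∀ i j, inner ℂ (∑ j', t i j' (x j')) (x j) = 0) := by
  classical
  have hpr : ProperSpace H := FiniteDimensional.proper ℂ H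
  have hpr2 : ProperSpace (H →L[ℂ] H) := FiniteDimensional.proper ℂ _
  set SS : Set (κ → H) := {x | ∑ j, ‖x j‖ ^ 2 = 1} with hSS
  have hSc : IsCompact SS := by
    apply Metric.isCompact_of_isClosed_isBounded
    · exact isClosed_eq (by fun_prop) continuous_const
    · rw [isBounded_iff_forall_norm_le]
      refine ⟨1, ?_⟩
      intro x hx
      rw [pi_norm_le_iff_of_nonneg zero_le_one]
      intro j
      have h1 : ‖x j‖ ^ 2 ≤ 1 := by
        rw [← (hx : ∑ j, ‖x j‖ ^ 2 = 1)]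
        exact Finset.single_le_sum (f := fun j => ‖x j‖ ^ 2) (fun j _ => sq_nonneg _)
          (Finset.mem_univ j)
      nlinarith [norm_nonneg (x j)]
  have hVc : IsCompact (closure (VV A Ω : Set (ι → κ → H →L[ℂ] H))) :=
    (VV_bounded A Ω hΩ).isCompact_closure
  have hne : (closure (VV A Ω : Set (ι → κ → H →L[ℂ] H)) ×ˢ SS).Nonempty := by
    obtain ⟨j₁⟩ := (inferInstance : Nonempty κ)
    obtain ⟨e, he⟩ := exists_norm_eq H zero_le_one
    refine ⟨(fun _ _ => 0, fun j => if j = j₁ then e else 0), subset_closure ?_, ?_⟩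
    · refine ⟨fun _ _ => 0, ?_, ?_⟩
      · intro w _ v
        simp only [eval_zero, zero_mul, Finset.sum_const_zero, norm_zero]
        have : (0 : ℝ) ^ 2 = 0 := by norm_num
        rw [this, Finset.sum_const_zero]
        exact Finset.sum_nonneg fun _ _ => sq_nonneg _
      · funext i j; simp
    · show ∑ j, ‖(if j = j₁ then e else (0 : H))‖ ^ 2 = 1
      have : ∀ j, ‖(if j = j₁ then e else (0 : H))‖ ^ 2 = if j = j₁ then (1 : ℝ) else 0 := by
        intro j; by_cases hj : j = j₁ <;> simp [hj, he]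
      simp only [this]
      simp
  obtain ⟨⟨t, x⟩, ⟨ht, hx⟩, hmax⟩ := (hVc.prod hSc).exists_isMaxOn hne
    nsq_continuous.continuousOn
  simp only at ht hx
  have hx1 : ∑ j, ‖x j‖ ^ 2 = 1 := hx
  set K : ℝ := Real.sqrt (nsq t x) with hK
  have hK0 : 0 ≤ K := Real.sqrt_nonneg _
  have hK2 : K ^ 2 = nsq t x := Real.sq_sqrt (nsq_nonneg t x)
  have hE0 : ∀ t' ∈ closure (VV A Ω : Set (ι → κ → H →L[ℂ] H)), ∀ u : κ → H,
      nsq t' u ≤ K ^ 2 * ∑ j, ‖u j‖ ^ 2 := by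
    intro t' ht' u
    set s : ℝ := ∑ j, ‖u j‖ ^ 2 with hs
    have hs0 : 0 ≤ s := Finset.sum_nonneg fun _ _ => sq_nonneg _
    rcases hs0.eq_or_lt with h0 | h0
    · have hu : ∀ j, u j = 0 := by
        intro j
        have h1 : ‖u j‖ ^ 2 ≤ s := Finset.single_le_sum (f := fun j => ‖u j‖ ^ 2)
          (fun j _ => sq_nonneg _) (Finset.mem_univ j)
        rw [← h0] at h1
        have : ‖u j‖ = 0 := by nlinarith [norm_nonneg (u j)]
        exact norm_eq_zero.mp this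
      rw [← h0, mul_zero]
      apply le_of_eq
      unfold nsq
      simp [hu]
    · set r : ℝ := Real.sqrt s with hr
      have hr0 : 0 < r := Real.sqrt_pos.mpr h0
      have hr2 : r ^ 2 = s := Real.sq_sqrt hs0
      set u' : κ → H := fun j => ((r⁻¹ : ℝ) : ℂ) • u j with hu'
      have hu'S : u' ∈ SS := by
        show ∑ j, ‖((r⁻¹ : ℝ) : ℂ) • u j‖ ^ 2 = 1
        have : ∀ j, ‖((r⁻¹ : ℝ) : ℂ) • u j‖ ^ 2 = s⁻¹ * ‖u j‖ ^ 2 := by
          intro j
          rw [norm_smul, Complex.norm_real, Real.norm_eq_abs, mul_pow, sq_abs, inv_pow, hr2]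
        simp only [this]
        rw [← Finset.mul_sum, ← hs, inv_mul_cancel₀ h0.ne']
      have h1 : nsq t' u' ≤ nsq t x := hmax (a := (t', u')) ⟨ht', hu'S⟩
      have h2 : nsq t' u' = s⁻¹ * nsq t' u := by
        rw [hu', nsq_smul, Complex.norm_real, Real.norm_eq_abs, sq_abs, inv_pow, hr2]
      rw [h2, inv_mul_le_iff₀ h0, ← hK2] at h1
      linarith
  refine ⟨K, hK0, hE0, fun hK1 => ⟨t, ht, x, hx1, hK2.symm, ?_⟩⟩
  set y : ι → H := fun i => ∑ j, t i j (x j) with hy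
  have hyn : ∑ i, ‖y i‖ ^ 2 = K ^ 2 := hK2.symm
  have hre : ∀ u v : H, ‖u + v‖ ^ 2 = ‖u‖ ^ 2 + 2 * (inner ℂ u v).re + ‖v‖ ^ 2 := fun u v =>
    norm_add_sq (𝕜 := ℂ) u v
  -- the Euler equation
  have hE1 : ∀ (j : κ) (h : H), ∑ i, inner ℂ (y i) (t i j h) = (K ^ 2 : ℝ) * inner ℂ (x j) h := by
    intro j h
    rw [← sub_eq_zero]
    apply eq_zero_of_quad _ 2 (K ^ 2 * ‖h‖ ^ 2) (by norm_num)
    intro c
    have h1 := hE0 t ht (fun j' => x j' + if j' = j then c • h else 0)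
    have e1 : ∑ j', ‖x j' + (if j' = j then c • h else 0)‖ ^ 2 =
        1 + 2 * (inner ℂ (x j) (c • h)).re + ‖c • h‖ ^ 2 := by
      have h4 : ∀ j', ‖x j' + (if j' = j then c • h else 0)‖ ^ 2 =
          ‖x j'‖ ^ 2 + if j' = j then (2 * (inner ℂ (x j) (c • h)).re + ‖c • h‖ ^ 2) else 0 := by
        intro j'
        by_cases hj : j' = j
        · subst hj
          simp only [if_true]
          rw [hre]; ring
        · simp [hj]
      simp only [h4]
      rw [Finset.sum_add_distrib, Finset.sum_ite_eq', hx1]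
      simp only [Finset.mem_univ, if_true]
      ring
    have e2 : nsq t (fun j' => x j' + if j' = j then c • h else 0) =
        ∑ i, ‖y i + t i j (c • h)‖ ^ 2 := by
      unfold nsq
      refine Finset.sum_congr rfl fun i _ => ?_
      congr 2
      simp only [map_add, Finset.sum_add_distrib]
      congr 1
      rw [Finset.sum_eq_single j]
      · simp
      · intro b _ hb; simp [hb]
      · intro hj; exact absurd (Finset.mem_univ j) hj
    rw [e1, e2] at h1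
    simp only [hre] at h1
    rw [Finset.sum_add_distrib, Finset.sum_add_distrib, hyn, ← Finset.mul_sum] at h1
    have h5 : 0 ≤ ∑ i, ‖t i j (c • h)‖ ^ 2 := Finset.sum_nonneg fun _ _ => sq_nonneg _
    have e3 : (c * (∑ i, inner ℂ (y i) (t i j h) - (K ^ 2 : ℝ) * inner ℂ (x j) h)).re =
        ∑ i, (inner ℂ (y i) (t i j (c • h))).re - K ^ 2 * (inner ℂ (x j) (c • h)).re := by
      rw [← Complex.re_ofReal_mul, ← Complex.re_sum, ← Complex.sub_re]
      congr 1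
      rw [mul_sub, Finset.mul_sum, inner_smul_right]
      congr 1
      · refine Finset.sum_congr rfl fun i _ => ?_
        rw [map_smul, inner_smul_right]
      · ring
    have e4 : ‖c • h‖ ^ 2 = ‖c‖ ^ 2 * ‖h‖ ^ 2 := by rw [norm_smul, mul_pow]
    rw [e3]
    rw [e4] at h1
    linarith
  -- the variation
  intro i₀ j₀
  show inner ℂ (y i₀) (x j₀) = 0
  have hKK : 0 < K ^ 2 - 1 := by nlinarith
  apply eq_zero_of_quad _ (2 * (K ^ 2 - 1)) (4 * K ^ 2) (by linarith)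
  intro c
  set ρ : ℝ := Real.sqrt (1 + 4 * ‖c‖ ^ 2) with hρ
  have hρ0 : 0 < ρ := Real.sqrt_pos.mpr (by positivity)
  have hρ2 : ρ ^ 2 = 1 + 4 * ‖c‖ ^ 2 := Real.sq_sqrt (by positivity)
  set Φ : (ι → κ → H →L[ℂ] H) → (ι → κ → H →L[ℂ] H) := fun t i j => ((ρ : ℂ)⁻¹) •
    (t i j - (if i = i₀ ∧ j = j₀ then c else 0) • (1 : H →L[ℂ] H) +
      (starRingEnd ℂ) c • (t i j₀ * t i₀ j)) with hΦ
  have hΦc : Continuous Φ := by
    rw [hΦ]
    fun_prop
  have hΦm : Φ t ∈ closure (VV A Ω : Set (ι → κ → H →L[ℂ] H)) :=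
    map_mem_closure hΦc ht fun t' ht' => VV_var A Ω i₀ j₀ c ρ hρ0 hρ2.symm ht'
  have h1 := hE0 _ hΦm x
  rw [hx1, mul_one] at h1
  have e1 : nsq (Φ t) x = (ρ ^ 2)⁻¹ * ∑ i, ‖y i + ((if i = i₀ then -(c • x j₀) else 0) +
      (starRingEnd ℂ) c • t i j₀ (y i₀))‖ ^ 2 := by
    unfold nsq
    rw [Finset.mul_sum]
    refine Finset.sum_congr rfl fun i _ => ?_
    have : ∑ j, (Φ t i j) (x j) = ((ρ : ℂ)⁻¹) • (y i + ((if i = i₀ then -(c • x j₀) else 0) +
      (starRingEnd ℂ) c • t i j₀ (y i₀))) := by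
      have h2 : ∀ j, (Φ t i j) (x j) = ((ρ : ℂ)⁻¹) • (t i j (x j) -
          (if i = i₀ ∧ j = j₀ then c else 0) • x j +
          (starRingEnd ℂ) c • t i j₀ (t i₀ j (x j))) := fun j => rfl
      simp only [h2]
      rw [← Finset.smul_sum, Finset.sum_add_distrib, Finset.sum_sub_distrib, ← Finset.smul_sum,
        ← map_sum]
      congr 1
      have h3 : ∑ j, (if i = i₀ ∧ j = j₀ then c else 0) • x j =
          if i = i₀ then c • x j₀ else 0 := by
        by_cases hi : i = i₀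
        · simp [hi, ite_smul]
        · simp [hi]
      rw [h3]
      by_cases hi : i = i₀
      · simp only [hi, if_true]; abel
      · simp only [hi, if_false]; abel
    rw [this, norm_smul, mul_pow, norm_inv, Complex.norm_real, Real.norm_eq_abs, inv_pow, sq_abs]
  rw [e1, inv_mul_le_iff₀ (by positivity)] at h1
  simp only [hre] at h1
  rw [Finset.sum_add_distrib, Finset.sum_add_distrib, hyn, ← Finset.mul_sum] at h1
  have h5 : 0 ≤ ∑ i, ‖(if i = i₀ then -(c • x j₀) else 0) +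
      (starRingEnd ℂ) c • t i j₀ (y i₀)‖ ^ 2 := Finset.sum_nonneg fun _ _ => sq_nonneg _
  have e2 : ∑ i, (inner ℂ (y i) ((if i = i₀ then -(c • x j₀) else 0) +
      (starRingEnd ℂ) c • t i j₀ (y i₀))).re = (K ^ 2 - 1) * (c * inner ℂ (y i₀) (x j₀)).re := by
    simp only [inner_add_right, Complex.add_re]
    rw [Finset.sum_add_distrib]
    have h6 : ∑ i, (inner ℂ (y i) (if i = i₀ then -(c • x j₀) else 0)).re =
        -(c * inner ℂ (y i₀) (x j₀)).re := by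
      rw [Finset.sum_eq_single i₀]
      · simp only [if_true]
        rw [inner_neg_right, Complex.neg_re, inner_smul_right]
      · intro b _ hb; simp [hb]
      · intro hj; exact absurd (Finset.mem_univ i₀) hj
    have h7 : ∑ i, (inner ℂ (y i) ((starRingEnd ℂ) c • t i j₀ (y i₀))).re =
        K ^ 2 * (c * inner ℂ (y i₀) (x j₀)).re := by
      have h8 : ∑ i, inner ℂ (y i) ((starRingEnd ℂ) c • t i j₀ (y i₀)) =
          (starRingEnd ℂ) c * ((K ^ 2 : ℝ) * inner ℂ (x j₀) (y i₀)) := by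
        rw [← hE1 j₀ (y i₀), Finset.mul_sum]
        exact Finset.sum_congr rfl fun i _ => inner_smul_right _ _ _
      rw [← Complex.re_sum, h8, ← inner_conj_symm (x j₀) (y i₀)]
      have h9 : (starRingEnd ℂ) c * ((K ^ 2 : ℝ) * (starRingEnd ℂ) (inner ℂ (y i₀) (x j₀))) =
          ((K ^ 2 : ℝ) : ℂ) * (starRingEnd ℂ) (c * inner ℂ (y i₀) (x j₀)) := by
        rw [map_mul]; ring
      rw [h9, Complex.re_ofReal_mul, Complex.conj_re]
    rw [h6, h7]
    ring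
  rw [e2, hρ2] at h1
  simp only [hre] at h5
  linarith

end Pool.Agent.KS6_83.CZ
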