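import Pool.Agent.KS6_83.CZ.ColHilbert
import Pool.Agent.KS6_83.CZ.Ext
import Pool.Graph.R_pool_sql_team_seeded_2aa45f1a.Q169.CZ.Full

set_option autoImplicit false
open Complex Metric Filter Topology Polynomial
open Pool.Agent.Q169.CZ Pool.Agent.W753.CZ

namespace Pool.Agent.KS6_83.CZ

variable {H : Type*} [NormedAddCommGroup H] [InnerProductSpace ℂ H]
variable {ι κ : Type*} [Fintype ι] [Fintype κ]

/-- factor `s` on `x`, `1` on the orthogonal complement -/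
noncomputable def Dx (x : H) (s : ℝ) : H →L[ℂ] H :=
  1 + ((s - 1 : ℝ) : ℂ) • (innerSL ℂ x).smulRight x

theorem Dx_apply (x : H) (s : ℝ) (h : H) :
    Dx x s h = h + ((s - 1 : ℝ) : ℂ) • (inner ℂ x h • x) := rfl

theorem Dx_perp (x : H) (s : ℝ) (h : H) (hh : inner ℂ x h = 0) : Dx x s h = h := by
  rw [Dx_apply, hh, zero_smul, smul_zero, add_zero]

theorem Dx_x {x : H} (hx : ‖x‖ = 1) (s : ℝ) : Dx x s x = (s : ℂ) • x := by
  have h11 : inner ℂ x x = 1 := by rw [inner_self_real, hx]; simp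
  rw [Dx_apply, h11]
  push_cast
  module

theorem Dx_mul {x : H} (hx : ‖x‖ = 1) {s s' : ℝ} (hs : s * s' = 1) : Dx x s * Dx x s' = 1 := by
  ext h
  show Dx x s (Dx x s' h) = h
  rw [Dx_apply x s' h, map_add, map_smul, map_smul, Dx_x hx, Dx_apply x s h]
  have e1 : (s : ℂ) * s' = 1 := by exact_mod_cast hs
  simp only [smul_smul]
  have h1 : ((s' - 1 : ℝ) : ℂ) * (inner ℂ x h * (s : ℂ)) = (1 - s) * inner ℂ x h := by
    push_cast; linear_combination (inner ℂ x h) * e1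
  rw [h1]
  push_cast
  module

theorem Dx_symm (x : H) (s : ℝ) (u v : H) : inner ℂ (Dx x s u) v = inner ℂ u (Dx x s v) := by
  rw [Dx_apply, Dx_apply, inner_add_left, inner_add_right]
  simp only [inner_smul_left, inner_smul_right, Complex.conj_ofReal, inner_conj_symm]
  ring

theorem Dx_norm {x : H} (hx : ‖x‖ = 1) (s : ℝ) (h : H) :
    ‖Dx x s h‖ ^ 2 = ‖h‖ ^ 2 + (s ^ 2 - 1) * ‖inner ℂ x h‖ ^ 2 := by
  have h11 : inner ℂ x x = 1 := by rw [inner_self_real, hx]; simp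
  have hc : ((‖Dx x s h‖ ^ 2 : ℝ) : ℂ) = ((‖h‖ ^ 2 + (s ^ 2 - 1) * ‖inner ℂ x h‖ ^ 2 : ℝ) : ℂ) := by
    rw [← inner_self_real, Dx_apply]
    simp only [inner_add_left, inner_add_right, inner_smul_left, inner_smul_right,
      Complex.conj_ofReal, h11]
    have e1 : inner ℂ h x * inner ℂ x h = ((‖inner ℂ x h‖ ^ 2 : ℝ) : ℂ) := by
      rw [← inner_conj_symm h x, ← Complex.normSq_eq_norm_sq, mul_comm, Complex.mul_conj]
    have e3 : inner ℂ h h = ((‖h‖ ^ 2 : ℝ) : ℂ) := inner_self_real h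
    have c1 : (starRingEnd ℂ) (inner ℂ x h) = inner ℂ h x := inner_conj_symm h x
    rw [c1]
    push_cast at e1 e3 ⊢
    linear_combination e3 + ((s : ℂ) ^ 2 - 1) * e1
  exact_mod_cast hc

/-- the column version of `pair_bound` -/
theorem col_pair [FiniteDimensional ℂ H] (h2 : 2 ≤ Module.finrank ℂ H) (A : H →L[ℂ] H) {q : ℂ}
    (hq0 : q ≠ 0) (hq1 : ‖q‖ ≤ 1) (f : ι → ℂ[X])
    (hM : ∀ w ∈ Om A q, ∑ i, ‖(f i).eval w‖ ^ 2 ≤ 1)
    {X Y : H} (hXY : inner ℂ Y X = 1) (hn : ‖X‖ ^ 2 * ‖Y‖ ^ 2 ≤ 1 / ‖q‖ ^ 2) :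
    ∑ i, ‖(f i).eval (inner ℂ Y (A X))‖ ^ 2 ≤ 1 := by
  set z := inner ℂ Y (A X) with hz
  set D : ℝ := ∑ i, ‖(f i).eval z‖ ^ 2 with hD
  have hD0 : 0 ≤ D := Finset.sum_nonneg fun _ _ => sq_nonneg _
  have hs2 : Real.sqrt D ^ 2 = D := Real.sq_sqrt hD0
  set p : ℂ[X] := ∑ i, C ((starRingEnd ℂ) ((f i).eval z)) * f i with hp
  have hpe : ∀ w, p.eval w = ∑ i, (starRingEnd ℂ) ((f i).eval z) * (f i).eval w := by
    intro w
    rw [hp, eval_finsetSum]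
    simp only [eval_mul, eval_C]
  have h1 := pair_bound h2 A hq0 hq1 p (Real.sqrt D) (by
    intro w hw
    apply le_of_sq_le_sq _ (Real.sqrt_nonneg _)
    rw [hs2, hpe]
    calc ‖∑ i, (starRingEnd ℂ) ((f i).eval z) * (f i).eval w‖ ^ 2
        ≤ (∑ i, ‖(f i).eval z‖ * ‖(f i).eval w‖) ^ 2 := by
          gcongr
          refine (norm_sum_le _ _).trans (le_of_eq ?_)
          refine Finset.sum_congr rfl fun i _ => ?_
          rw [norm_mul, RCLike.norm_conj]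
      _ ≤ (∑ i, ‖(f i).eval z‖ ^ 2) * ∑ i, ‖(f i).eval w‖ ^ 2 :=
          Finset.sum_mul_sq_le_sq_mul_sq _ _ _
      _ ≤ D * 1 := by
          gcongr
          exact hM w hw
      _ = D := mul_one _) hXY hn
  have h3 : p.eval z = ((D : ℝ) : ℂ) := by
    rw [hpe, hD]
    push_cast
    refine Finset.sum_congr rfl fun i _ => ?_
    rw [mul_comm, Complex.mul_conj, Complex.normSq_eq_norm_sq]
    push_cast
    ring
  rw [← hz, h3, Complex.norm_real, Real.norm_of_nonneg hD0] at h1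
  by_contra hcon
  push Not at hcon
  have h4 : Real.sqrt D < D := by
    rw [Real.sqrt_lt' (by linarith)]
    nlinarith
  linarith

theorem kant1 (g a : ℝ) (hg : 0 < g) :
    (1 + (g ^ 2 - 1) * a) * (1 + ((g⁻¹) ^ 2 - 1) * a) ≤ ((g + g⁻¹) / 2) ^ 2 := by
  have h1 : g * g⁻¹ = 1 := mul_inv_cancel₀ hg.ne'
  set d := g⁻¹ with hd
  have h2 : (g * d) ^ 2 = 1 := by rw [h1]; norm_num
  have e1 : (1 + (g ^ 2 - 1) * a) * (1 + (d ^ 2 - 1) * a) =
      1 + (g - d) ^ 2 * (a - a ^ 2) := by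
    have : g ^ 2 * d ^ 2 = 1 := by rw [← mul_pow]; exact h2
    linear_combination (a ^ 2) * this + 2 * (a - a ^ 2) * h1
  have e2 : ((g + d) / 2) ^ 2 = 1 + (g - d) ^ 2 * (1 / 4) := by
    linear_combination h1
  rw [e1, e2]
  have h3 : a - a ^ 2 ≤ 1 / 4 := by nlinarith [sq_nonneg (a - 1 / 2)]
  have h4 := mul_le_mul_of_nonneg_left h3 (sq_nonneg (g - d))
  linarith

theorem conj_pow {S S' A : H →L[ℂ] H} (hSS' : S * S' = 1) (hS'S : S' * S = 1) (g : ℂ[X]) :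
    aeval (S' * A * S) g = S' * aeval A g * S := by
  set B := S' * A * S with hB
  induction g using Polynomial.induction_on' with
  | add g1 g2 h1 h2 => rw [map_add, map_add, h1, h2, mul_add, add_mul]
  | monomial n a =>
    rw [aeval_monomial, aeval_monomial]
    have hpow : B ^ n = S' * A ^ n * S := by
      induction n with
      | zero => rw [pow_zero, pow_zero, mul_one, hS'S]
      | succ n ih =>
        rw [pow_succ, ih, hB, pow_succ]
        calc S' * A ^ n * S * (S' * A * S) = S' * A ^ n * (S * S') * A * S := by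
              simp only [mul_assoc]
          _ = S' * (A ^ n * A) * S := by rw [hSS']; simp only [mul_assoc, one_mul]
    rw [hpow, Algebra.algebraMap_eq_smul_one]
    simp only [smul_mul_assoc, one_mul, mul_smul_comm]

/-- the column bound for the similar operator -/
theorem col_gamma [FiniteDimensional ℂ H] (h2 : 2 ≤ Module.finrank ℂ H) (A : H →L[ℂ] H) {q : ℂ}
    (hq0 : q ≠ 0) (hq1 : ‖q‖ ≤ 1) (f : ι → ℂ[X])
    (hM : ∀ w ∈ Om A q, ∑ i, ‖(f i).eval w‖ ^ 2 ≤ 1)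
    {γ : ℝ} (hγ : γ = (1 + Real.sqrt (1 - ‖q‖ ^ 2)) / ‖q‖) {x : H} (hx : ‖x‖ = 1) (u : H) :
    ∑ i, ‖Dx x γ⁻¹ (aeval A (f i) (Dx x γ u))‖ ^ 2 ≤ 4 * ‖u‖ ^ 2 := by
  have : CompleteSpace H := FiniteDimensional.complete ℂ H
  have hqn : 0 < ‖q‖ := norm_pos_iff.mpr hq0
  have hs0 : 0 ≤ Real.sqrt (1 - ‖q‖ ^ 2) := Real.sqrt_nonneg _
  have hs2 : Real.sqrt (1 - ‖q‖ ^ 2) ^ 2 = 1 - ‖q‖ ^ 2 := Real.sq_sqrt (by nlinarith)
  have hγ0 : 0 < γ := by rw [hγ]; positivity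
  have hγs : γ + γ⁻¹ = 2 / ‖q‖ := by
    rw [hγ]
    have : (1 + Real.sqrt (1 - ‖q‖ ^ 2)) ≠ 0 := by positivity
    field_simp
    nlinarith
  set S := Dx x γ with hS
  set S' := Dx x γ⁻¹ with hS'
  have hSS' : S * S' = 1 := Dx_mul hx (mul_inv_cancel₀ hγ0.ne')
  have hS'S : S' * S = 1 := Dx_mul hx (inv_mul_cancel₀ hγ0.ne')
  have hmain := col_hilbert (S' * A * S) f 1 (by
    rintro w ⟨h, hh, rfl⟩
    have e1 : inner ℂ h ((S' * A * S) h) = inner ℂ (S' h) (A (S h)) :=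
      (Dx_symm x γ⁻¹ h (A (S h))).symm
    rw [e1]
    apply col_pair h2 A hq0 hq1 f hM
    · have e2 : inner ℂ (S' h) (S h) = inner ℂ h ((S' * S) h) := Dx_symm x γ⁻¹ h (S h)
      rw [e2, hS'S]
      show inner ℂ h h = 1
      rw [inner_self_real, hh]; simp
    · rw [hS, hS', Dx_norm hx, Dx_norm hx, hh, one_pow]
      have h4 := kant1 γ (‖inner ℂ x h‖ ^ 2) hγ0
      rw [hγs] at h4
      have h5 : (2 / ‖q‖ / 2) ^ 2 = 1 / ‖q‖ ^ 2 := by field_simp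
      rw [h5] at h4
      exact h4) u
  simp only [conj_pow hSS' hS'S] at hmain
  rw [mul_one] at hmain
  exact hmain

/-- the scalar bound, used for compactness -/
theorem scalar_two [FiniteDimensional ℂ H] (h2 : 2 ≤ Module.finrank ℂ H) (A : H →L[ℂ] H) {q : ℂ}
    (hq0 : q ≠ 0) (hq1 : ‖q‖ ≤ 1) (g : ℂ[X]) (hg : ∀ w ∈ Om A q, ‖g.eval w‖ ≤ 1) :
    ‖aeval A g‖ ≤ 2 := by
  have : CompleteSpace H := FiniteDimensional.complete ℂ H
  have hnt : Nontrivial H := by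
    apply Module.nontrivial_of_finrank_pos (R := ℂ); omega
  have := crouzeix_bound A g 1 (by
    rintro w ⟨x, hx, rfl⟩
    exact disc_bound h2 A hq0 hq1 g 1 hg hx _ (by rw [sub_self, norm_zero]; positivity))
  linarith

/-- the constant -/
noncomputable def cc (q : ℂ) : ℝ := max 1 (2 * ‖q‖ / (1 + Real.sqrt (1 - ‖q‖ ^ 2)))

theorem cc_one_le (q : ℂ) : 1 ≤ cc q := le_max_left _ _

/-- **Column theorem** for the scaled `q`-numerical range. -/
theorem col_q [FiniteDimensional ℂ H] (h2 : 2 ≤ Module.finrank ℂ H) (A : H →L[ℂ] H) {q : ℂ}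
    (hq0 : q ≠ 0) (hq1 : ‖q‖ ≤ 1) (f : ι → ℂ[X])
    (hf : ∀ w ∈ Om A q, ∑ i, ‖(f i).eval w‖ ^ 2 ≤ 1) (x₀ : H) :
    ∑ i, ‖aeval A (f i) x₀‖ ^ 2 ≤ cc q ^ 2 * ‖x₀‖ ^ 2 := by
  have : CompleteSpace H := FiniteDimensional.complete ℂ H
  have hnt : Nontrivial H := by
    apply Module.nontrivial_of_finrank_pos (R := ℂ); omega
  have hqn : 0 < ‖q‖ := norm_pos_iff.mpr hq0
  set γ := (1 + Real.sqrt (1 - ‖q‖ ^ 2)) / ‖q‖ with hγ
  have hs0 : 0 ≤ Real.sqrt (1 - ‖q‖ ^ 2) := Real.sqrt_nonneg _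
  have hγ0 : 0 < γ := by rw [hγ]; positivity
  have hcq : 2 * ‖q‖ / (1 + Real.sqrt (1 - ‖q‖ ^ 2)) = 2 / γ := by rw [hγ]; field_simp
  obtain ⟨K, hK0, hE0, hE⟩ := ext_lemma (ι := ι) (κ := Unit) A (Om A q)
    (scalar_two h2 A hq0 hq1)
  have hmem : (fun i (_ : Unit) => aeval A (f i)) ∈
      (VV A (Om A q) : Set (ι → Unit → H →L[ℂ] H)) := by
    refine ⟨fun i _ => f i, ?_, rfl⟩
    intro w hw v
    simp only [Finset.univ_unique, Finset.sum_singleton, norm_mul, mul_pow]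
    rw [← Finset.sum_mul]
    exact mul_le_of_le_one_left (sq_nonneg _) (hf w hw)
  have h1 := hE0 _ (subset_closure hmem) (fun _ => x₀)
  have h3 : nsq (fun i (_ : Unit) => aeval A (f i)) (fun _ => x₀) =
      ∑ i, ‖aeval A (f i) x₀‖ ^ 2 := by
    unfold nsq; simp
  rw [h3] at h1
  simp only [Finset.univ_unique, Finset.sum_singleton] at h1
  refine h1.trans ?_
  gcongr
  by_contra hcon
  push Not at hcon
  unfold cc at hcon
  rw [hcq] at hcon
  obtain ⟨hc1, hc2⟩ := max_lt_iff.mp hcon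
  obtain ⟨t, ht, x, hx1, hxK, hort⟩ := hE hc1
  set e : H := x () with he
  have he1 : ‖e‖ = 1 := by
    have h4 : ‖e‖ ^ 2 = 1 := by simpa using hx1
    exact (pow_eq_one_iff_of_nonneg (norm_nonneg _) two_ne_zero).mp h4
  have hKsum : ∑ i, ‖t i () e‖ ^ 2 = K ^ 2 := by
    rw [← hxK]; unfold nsq; simp [he]
  have hort' : ∀ i, inner ℂ e (t i () e) = 0 := by
    intro i
    have h5 := hort i ()
    simp only [Finset.univ_unique, Finset.sum_singleton] at h5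
    rw [← inner_conj_symm]
    have h6 : inner ℂ (t i () e) e = 0 := h5
    rw [h6, map_zero]
  -- the closed condition
  have hcl : ∀ s ∈ closure (VV A (Om A q) : Set (ι → Unit → H →L[ℂ] H)),
      ∑ i, ‖Dx e γ⁻¹ (s i () (Dx e γ e))‖ ^ 2 ≤ 4 * ‖e‖ ^ 2 := by
    have hclosed : IsClosed {s : ι → Unit → H →L[ℂ] H |
        ∑ i, ‖Dx e γ⁻¹ (s i () (Dx e γ e))‖ ^ 2 ≤ 4 * ‖e‖ ^ 2} :=
      isClosed_le (by fun_prop) continuous_const
    refine closure_minimal ?_ hclosed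
    rintro _ ⟨F, hF, rfl⟩
    apply col_gamma h2 A hq0 hq1 (fun i => F i ()) _ hγ he1 e
    intro w hw
    have h7 := hF w hw (fun _ => 1)
    simpa using h7
  have h8 := hcl t ht
  rw [Dx_x he1, he1] at h8
  have h9 : ∀ i, ‖Dx e γ⁻¹ (t i () ((γ : ℂ) • e))‖ ^ 2 = γ ^ 2 * ‖t i () e‖ ^ 2 := by
    intro i
    rw [map_smul, map_smul, Dx_perp _ _ _ (hort' i), norm_smul, Complex.norm_real,
      Real.norm_of_nonneg hγ0.le, mul_pow]
  simp only [h9] at h8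
  rw [← Finset.mul_sum, hKsum] at h8
  rw [div_lt_iff₀ hγ0] at hc2
  have h10 : (γ * K) ^ 2 ≤ 2 ^ 2 := by nlinarith
  have h11 : γ * K ≤ 2 := abs_le_of_sq_le_sq' h10 (by norm_num) |>.2
  linarith

end Pool.Agent.KS6_83.CZ
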