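import Pool.Agent.KS6_83.CZ.RowQ

set_option autoImplicit false
open Complex Metric Filter Topology Polynomial
open Pool.Agent.Q169.CZ Pool.Agent.W753.CZ

namespace Pool.Agent.KS6_83.CZ

variable {H : Type*} [NormedAddCommGroup H] [InnerProductSpace ℂ H]
variable {ι κ : Type*} [Fintype ι] [Fintype κ]

/-- the normalised statement, for `N = 1`, `m = 1` or dimension at most three -/
theorem mat_norm [FiniteDimensional ℂ H] (h2 : 2 ≤ Module.finrank ℂ H) (A : H →L[ℂ] H) {q : ℂ}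
    (hq0 : q ≠ 0) (hq1 : ‖q‖ ≤ 1) (N m : ℕ) (F : Fin N → Fin m → ℂ[X])
    (hNm : N = 1 ∨ m = 1 ∨ Module.finrank ℂ H ≤ 3)
    (hF : Ctr F (Om A q)) (x : Fin m → H) :
    ∑ i, ‖∑ j, aeval A (F i j) (x j)‖ ^ 2 ≤ cc q ^ 2 * ∑ j, ‖x j‖ ^ 2 := by
  rcases hNm with h | h | h
  · subst h
    simp only [Finset.univ_unique, Finset.sum_singleton, Fin.default_eq_zero]
    apply row_q h2 A hq0 hq1 (F 0)
    intro w hw
    set D : ℝ := ∑ j, ‖(F 0 j).eval w‖ ^ 2 with hD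
    have hD0 : 0 ≤ D := Finset.sum_nonneg fun _ _ => sq_nonneg _
    have h3 := hF w hw (fun j => (starRingEnd ℂ) ((F 0 j).eval w))
    simp only [Finset.univ_unique, Finset.sum_singleton, Fin.default_eq_zero,
      RCLike.norm_conj] at h3
    have h4 : ∑ j, (F 0 j).eval w * (starRingEnd ℂ) ((F 0 j).eval w) = ((D : ℝ) : ℂ) := by
      rw [hD]
      push_cast
      refine Finset.sum_congr rfl fun j _ => ?_
      rw [Complex.mul_conj, Complex.normSq_eq_norm_sq]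
      push_cast
      ring
    rw [h4, Complex.norm_real, Real.norm_of_nonneg hD0, ← hD] at h3
    nlinarith
  · subst h
    simp only [Finset.univ_unique, Finset.sum_singleton, Fin.default_eq_zero]
    apply col_q h2 A hq0 hq1 (fun i => F i 0)
    intro w hw
    have h3 := hF w hw (fun _ => 1)
    simpa using h3
  · exact mat_three h2 h A hq0 hq1 F hF x

theorem limit_bound (L c M S : ℝ) (h : ∀ M' : ℝ, |M| < M' → L ≤ (c * M') ^ 2 * S) :
    L ≤ (c * M) ^ 2 * S := by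
  have h1 : Tendsto (fun M' : ℝ => (c * M') ^ 2 * S) (𝓝[>] |M|) (𝓝 ((c * |M|) ^ 2 * S)) := by
    have : Continuous fun M' : ℝ => (c * M') ^ 2 * S := by fun_prop
    exact (this.tendsto _).mono_left nhdsWithin_le_nhds
  have h2 : (c * |M|) ^ 2 * S = (c * M) ^ 2 * S := by
    rw [mul_pow, mul_pow, sq_abs]
  rw [← h2]
  refine ge_of_tendsto h1 ?_
  filter_upwards [self_mem_nhdsWithin] with M' hM'
  exact h M' hM'

/-- the statement with a general bound `M` -/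
theorem mat_bound [FiniteDimensional ℂ H] (h2 : 2 ≤ Module.finrank ℂ H) (A : H →L[ℂ] H) {q : ℂ}
    (hq0 : q ≠ 0) (hq1 : ‖q‖ ≤ 1) (N m : ℕ) (F : Fin N → Fin m → ℂ[X])
    (hNm : N = 1 ∨ m = 1 ∨ Module.finrank ℂ H ≤ 3) (M : ℝ)
    (hF : ∀ w ∈ Om A q, ∀ v : Fin m → ℂ,
      ∑ i, ‖∑ j, (F i j).eval w * v j‖ ^ 2 ≤ M ^ 2 * ∑ j, ‖v j‖ ^ 2) (x : Fin m → H) :
    ∑ i, ‖∑ j, aeval A (F i j) (x j)‖ ^ 2 ≤ (cc q * M) ^ 2 * ∑ j, ‖x j‖ ^ 2 := by
  apply limit_bound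
  intro M' hM'
  have hM0 : 0 < M' := (abs_nonneg M).trans_lt hM'
  have hMM : M ^ 2 ≤ M' ^ 2 := by
    rw [← sq_abs M]
    gcongr
  have h1 := mat_norm h2 A hq0 hq1 N m (fun i j => C ((M' : ℂ)⁻¹) * F i j) hNm (by
    intro w hw v
    have e1 : ∀ i, ‖∑ j, (C ((M' : ℂ)⁻¹) * F i j).eval w * v j‖ ^ 2 =
        (M' ^ 2)⁻¹ * ‖∑ j, (F i j).eval w * v j‖ ^ 2 := by
      intro i
      have : ∑ j, (C ((M' : ℂ)⁻¹) * F i j).eval w * v j =
          ((M' : ℂ)⁻¹) * ∑ j, (F i j).eval w * v j := by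
        rw [Finset.mul_sum]
        refine Finset.sum_congr rfl fun j _ => ?_
        simp only [eval_mul, eval_C]
        ring
      rw [this, norm_mul, norm_inv, Complex.norm_real, Real.norm_eq_abs, mul_pow, inv_pow, sq_abs]
    simp only [e1]
    rw [← Finset.mul_sum, inv_mul_le_iff₀ (by positivity)]
    refine (hF w hw v).trans ?_
    gcongr) x
  have e2 : ∀ i, ‖∑ j, aeval A (C ((M' : ℂ)⁻¹) * F i j) (x j)‖ ^ 2 =
      (M' ^ 2)⁻¹ * ‖∑ j, aeval A (F i j) (x j)‖ ^ 2 := by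
    intro i
    have : ∑ j, aeval A (C ((M' : ℂ)⁻¹) * F i j) (x j) =
        ((M' : ℂ)⁻¹) • ∑ j, aeval A (F i j) (x j) := by
      rw [Finset.smul_sum]
      refine Finset.sum_congr rfl fun j _ => ?_
      rw [map_mul, aeval_C, Algebra.algebraMap_eq_smul_one, smul_mul_assoc, one_mul]
      rfl
    rw [this, norm_smul, norm_inv, Complex.norm_real, Real.norm_eq_abs, mul_pow, inv_pow, sq_abs]
  simp only [e2] at h1
  rw [← Finset.mul_sum, inv_mul_le_iff₀ (by positivity)] at h1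
  refine h1.trans (le_of_eq ?_)
  ring

/-- a matrix of scalars acting on vectors of `ℂⁿ` -/
theorem scalar_amp {n : ℕ} (M : ι → κ → ℂ) (B : ℝ)
    (hM : ∀ v : κ → ℂ, ∑ i, ‖∑ j, M i j * v j‖ ^ 2 ≤ B * ∑ j, ‖v j‖ ^ 2)
    (x : κ → EuclideanSpace ℂ (Fin n)) :
    ∑ i, ‖∑ j, M i j • x j‖ ^ 2 ≤ B * ∑ j, ‖x j‖ ^ 2 := by
  simp only [EuclideanSpace.norm_sq_eq]
  rw [Finset.sum_comm, Finset.sum_comm (s := (Finset.univ : Finset κ)), Finset.mul_sum]
  refine Finset.sum_le_sum fun k _ => ?_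
  have h1 := hM (fun j => x j k)
  refine le_trans (le_of_eq ?_) h1
  refine Finset.sum_congr rfl fun i _ => ?_
  congr 2
  simp

end Pool.Agent.KS6_83.CZ
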