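import Pool.Agent.KS6_83.CZ.ColQ

set_option autoImplicit false
open Complex Metric Filter Topology Polynomial
open Pool.Agent.Q169.CZ Pool.Agent.W753.CZ

namespace Pool.Agent.KS6_83.CZ

variable {H : Type*} [NormedAddCommGroup H] [InnerProductSpace ℂ H]
variable {ι κ : Type*} [Fintype ι] [Fintype κ]

theorem star_aeval [CompleteSpace H] (A : H →L[ℂ] H) (g : ℂ[X]) :
    star (aeval A g) = aeval (star A) (g.map (starRingEnd ℂ)) := by
  induction g using Polynomial.induction_on' with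
  | add g1 g2 h1 h2 => rw [map_add, star_add, h1, h2, Polynomial.map_add, map_add]
  | monomial n a =>
    rw [aeval_monomial, Polynomial.map_monomial, aeval_monomial, star_mul, star_pow,
      Algebra.algebraMap_eq_smul_one, Algebra.algebraMap_eq_smul_one, star_smul, star_one,
      smul_mul_assoc, one_mul, mul_smul_comm, mul_one]
    rfl

theorem eval_conj (g : ℂ[X]) (w : ℂ) :
    (g.map (starRingEnd ℂ)).eval w = (starRingEnd ℂ) (g.eval ((starRingEnd ℂ) w)) := by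
  rw [eval_map, ← eval₂_at_apply, Complex.conj_conj]

theorem Om_star [CompleteSpace H] (A : H →L[ℂ] H) (q w : ℂ)
    (hw : w ∈ Om (star A) ((starRingEnd ℂ) q)) : (starRingEnd ℂ) w ∈ Om A q := by
  obtain ⟨x, y, hx, hy, hxy, rfl⟩ := hw
  refine ⟨y, x, hy, hx, ?_, ?_⟩
  · rw [← inner_conj_symm, hxy, Complex.conj_conj]
  · rw [map_div₀, Complex.conj_conj, inner_conj_symm, ContinuousLinearMap.star_eq_adjoint,
      ContinuousLinearMap.adjoint_inner_left]

theorem cc_conj (q : ℂ) : cc ((starRingEnd ℂ) q) = cc q := by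
  unfold cc; rw [RCLike.norm_conj]

/-- Duality between rows and columns. -/
theorem row_of_col [CompleteSpace H] (t : κ → H →L[ℂ] H) (c : ℝ)
    (h : ∀ y : H, ∑ j, ‖star (t j) y‖ ^ 2 ≤ c ^ 2 * ‖y‖ ^ 2) (x : κ → H) :
    ‖∑ j, t j (x j)‖ ^ 2 ≤ c ^ 2 * ∑ j, ‖x j‖ ^ 2 := by
  set y := ∑ j, t j (x j) with hy
  set s : ℝ := ∑ j, ‖x j‖ ^ 2 with hs
  have hs0 : 0 ≤ s := Finset.sum_nonneg fun _ _ => sq_nonneg _
  have h1 : ‖y‖ ^ 2 ≤ ∑ j, ‖star (t j) y‖ * ‖x j‖ := by
    have e1 : ‖y‖ ^ 2 = ∑ j, (inner ℂ (star (t j) y) (x j)).re := by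
      have h2 : (inner ℂ y y).re = ‖y‖ ^ 2 := inner_self_eq_norm_sq (𝕜 := ℂ) y
      rw [← h2]
      conv_lhs => rw [hy]
      rw [← hy, inner_sum, Complex.re_sum]
      refine Finset.sum_congr rfl fun j _ => ?_
      rw [ContinuousLinearMap.star_eq_adjoint, ContinuousLinearMap.adjoint_inner_left]
    rw [e1]
    refine Finset.sum_le_sum fun j _ => ?_
    exact (Complex.re_le_norm _).trans (norm_inner_le_norm _ _)
  have h3 : (‖y‖ ^ 2) ^ 2 ≤ (c ^ 2 * ‖y‖ ^ 2) * s := by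
    calc (‖y‖ ^ 2) ^ 2 ≤ (∑ j, ‖star (t j) y‖ * ‖x j‖) ^ 2 := by gcongr
      _ ≤ (∑ j, ‖star (t j) y‖ ^ 2) * ∑ j, ‖x j‖ ^ 2 := Finset.sum_mul_sq_le_sq_mul_sq _ _ _
      _ ≤ _ := by gcongr; exact h y
  rcases (norm_nonneg y).eq_or_lt with h0 | h0
  · rw [← h0]
    have : 0 ≤ c ^ 2 * s := by positivity
    nlinarith
  · have h4 : ‖y‖ ^ 2 * ‖y‖ ^ 2 ≤ (c ^ 2 * s) * ‖y‖ ^ 2 := by nlinarith
    exact le_of_mul_le_mul_right h4 (by positivity)

/-- **Row theorem** for the scaled `q`-numerical range. -/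
theorem row_q [FiniteDimensional ℂ H] (h2 : 2 ≤ Module.finrank ℂ H) (A : H →L[ℂ] H) {q : ℂ}
    (hq0 : q ≠ 0) (hq1 : ‖q‖ ≤ 1) (g : κ → ℂ[X])
    (hg : ∀ w ∈ Om A q, ∑ j, ‖(g j).eval w‖ ^ 2 ≤ 1) (x : κ → H) :
    ‖∑ j, aeval A (g j) (x j)‖ ^ 2 ≤ cc q ^ 2 * ∑ j, ‖x j‖ ^ 2 := by
  have : CompleteSpace H := FiniteDimensional.complete ℂ H
  apply row_of_col (fun j => aeval A (g j))
  intro y
  simp only [star_aeval]
  have h1 := col_q h2 (star A) (q := (starRingEnd ℂ) q) (by simpa using hq0)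
    (by rw [RCLike.norm_conj]; exact hq1) (fun j => (g j).map (starRingEnd ℂ)) (by
      intro w hw
      have := hg _ (Om_star A q w hw)
      refine le_trans (le_of_eq ?_) this
      refine Finset.sum_congr rfl fun j _ => ?_
      rw [eval_conj, RCLike.norm_conj]) y
  rw [cc_conj] at h1
  exact h1

/-- Row version of Crouzeix's conjecture for bounded operators on a Hilbert space. -/
theorem row_hilbert [CompleteSpace H] (A : H →L[ℂ] H) (g : κ → ℂ[X]) (B : ℝ)
    (hB0 : 0 ≤ B)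
    (hB : ∀ w ∈ numRange A, ∑ j, ‖(g j).eval w‖ ^ 2 ≤ B) (x : κ → H) :
    ‖∑ j, aeval A (g j) (x j)‖ ^ 2 ≤ 4 * B * ∑ j, ‖x j‖ ^ 2 := by
  have hc : (2 * Real.sqrt B) ^ 2 = 4 * B := by
    rw [mul_pow, Real.sq_sqrt hB0]; norm_num
  rw [← hc]
  apply row_of_col (fun j => aeval A (g j))
  intro y
  simp only [star_aeval]
  rw [hc]
  apply col_hilbert (star A) (fun j => (g j).map (starRingEnd ℂ)) B
  rintro w ⟨u, hu, rfl⟩
  have := hB (inner ℂ u (A u)) ⟨u, hu, rfl⟩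
  refine le_trans (le_of_eq ?_) this
  refine Finset.sum_congr rfl fun j _ => ?_
  rw [eval_conj, RCLike.norm_conj, inner_conj_symm, ContinuousLinearMap.star_eq_adjoint,
    ContinuousLinearMap.adjoint_inner_left]

/-- columns of elements of the closure of `VV` -/
theorem closure_col [FiniteDimensional ℂ H] (h2 : 2 ≤ Module.finrank ℂ H) (A : H →L[ℂ] H) {q : ℂ}
    (hq0 : q ≠ 0) (hq1 : ‖q‖ ≤ 1) (a : κ → ℂ) (ha : ∑ j, ‖a j‖ ^ 2 ≤ 1) (u : H)
    (t : ι → κ → H →L[ℂ] H) (ht : t ∈ closure (VV A (Om A q))) :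
    ∑ i, ‖∑ j, t i j (a j • u)‖ ^ 2 ≤ cc q ^ 2 * ‖u‖ ^ 2 := by
  have hclosed : IsClosed {s : ι → κ → H →L[ℂ] H |
      ∑ i, ‖∑ j, s i j (a j • u)‖ ^ 2 ≤ cc q ^ 2 * ‖u‖ ^ 2} :=
    isClosed_le (by fun_prop) continuous_const
  refine closure_minimal ?_ hclosed ht
  rintro _ ⟨F, hF, rfl⟩
  have h1 := col_q h2 A hq0 hq1 (fun i => ∑ j, C (a j) * F i j) (by
    intro w hw
    refine le_trans (le_of_eq ?_) ((hF w hw a).trans ha)
    refine Finset.sum_congr rfl fun i _ => ?_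
    rw [eval_finsetSum]
    congr 2
    refine Finset.sum_congr rfl fun j _ => ?_
    rw [eval_mul, eval_C, mul_comm]) u
  refine le_trans (le_of_eq ?_) h1
  refine Finset.sum_congr rfl fun i _ => ?_
  rw [map_sum, sum_apply]
  congr 2
  refine Finset.sum_congr rfl fun j _ => ?_
  rw [map_mul, aeval_C, Algebra.algebraMap_eq_smul_one, smul_mul_assoc, one_mul, map_smul]
  rfl

/-- rows of elements of the closure of `VV` -/
theorem closure_row [FiniteDimensional ℂ H] (h2 : 2 ≤ Module.finrank ℂ H) (A : H →L[ℂ] H) {q : ℂ}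
    (hq0 : q ≠ 0) (hq1 : ‖q‖ ≤ 1) (b : ι → ℂ) (hb : ∑ i, ‖b i‖ ^ 2 ≤ 1) (x : κ → H)
    (t : ι → κ → H →L[ℂ] H) (ht : t ∈ closure (VV A (Om A q))) :
    ‖∑ i, b i • ∑ j, t i j (x j)‖ ^ 2 ≤ cc q ^ 2 * ∑ j, ‖x j‖ ^ 2 := by
  have hclosed : IsClosed {s : ι → κ → H →L[ℂ] H |
      ‖∑ i, b i • ∑ j, s i j (x j)‖ ^ 2 ≤ cc q ^ 2 * ∑ j, ‖x j‖ ^ 2} :=
    isClosed_le (by fun_prop) continuous_const
  refine closure_minimal ?_ hclosed ht
  rintro _ ⟨F, hF, rfl⟩
  have h1 := row_q h2 A hq0 hq1 (fun j => ∑ i, C (b i) * F i j) (by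
    intro w hw
    set g : κ → ℂ := fun j => ∑ i, b i * (F i j).eval w with hg
    have e1 : ∀ j, (∑ i, C (b i) * F i j).eval w = g j := by
      intro j
      rw [eval_finsetSum]
      simp only [eval_mul, eval_C]
      rfl
    simp only [e1]
    set D : ℝ := ∑ j, ‖g j‖ ^ 2 with hD
    have hD0 : 0 ≤ D := Finset.sum_nonneg fun _ _ => sq_nonneg _
    have h3 := hF w hw (fun j => (starRingEnd ℂ) (g j))
    have e2 : ∑ j, ‖(starRingEnd ℂ) (g j)‖ ^ 2 = D := by
      simp only [RCLike.norm_conj]; rfl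
    rw [e2] at h3
    -- `D = Σ b_i (F conj g)_i`
    have e3 : ((D : ℝ) : ℂ) = ∑ i, b i * ∑ j, (F i j).eval w * (starRingEnd ℂ) (g j) := by
      have h4 : ((D : ℝ) : ℂ) = ∑ j, g j * (starRingEnd ℂ) (g j) := by
        rw [hD]
        push_cast
        refine Finset.sum_congr rfl fun j _ => ?_
        rw [Complex.mul_conj, Complex.normSq_eq_norm_sq]
        push_cast
        ring
      rw [h4]
      simp only [Finset.mul_sum]
      rw [Finset.sum_comm]
      refine Finset.sum_congr rfl fun j _ => ?_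
      simp only [hg]
      rw [Finset.sum_mul]
      refine Finset.sum_congr rfl fun i _ => ?_
      ring
    have h5 : D ≤ ∑ i, ‖b i‖ * ‖∑ j, (F i j).eval w * (starRingEnd ℂ) (g j)‖ := by
      calc D = ‖((D : ℝ) : ℂ)‖ := by rw [Complex.norm_real, Real.norm_of_nonneg hD0]
        _ ≤ _ := by
          rw [e3]
          refine (norm_sum_le _ _).trans (le_of_eq ?_)
          refine Finset.sum_congr rfl fun i _ => ?_
          rw [norm_mul]
    have h6 : D ^ 2 ≤ 1 * D := by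
      calc D ^ 2 ≤ (∑ i, ‖b i‖ * ‖∑ j, (F i j).eval w * (starRingEnd ℂ) (g j)‖) ^ 2 := by
            gcongr
        _ ≤ (∑ i, ‖b i‖ ^ 2) * ∑ i, ‖∑ j, (F i j).eval w * (starRingEnd ℂ) (g j)‖ ^ 2 :=
            Finset.sum_mul_sq_le_sq_mul_sq _ _ _
        _ ≤ 1 * D := by
            apply mul_le_mul hb h3 (Finset.sum_nonneg fun _ _ => sq_nonneg _) zero_le_one
    nlinarith) x
  refine le_trans (le_of_eq ?_) h1
  congr 2
  simp only [map_sum, sum_apply, Finset.smul_sum]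
  rw [Finset.sum_comm]
  refine Finset.sum_congr rfl fun j _ => ?_
  refine Finset.sum_congr rfl fun i _ => ?_
  rw [map_mul, aeval_C, Algebra.algebraMap_eq_smul_one, smul_mul_assoc, one_mul]
  rfl

/-- The completely bounded version in dimension two and three. -/
theorem mat_three [FiniteDimensional ℂ H] (h2 : 2 ≤ Module.finrank ℂ H)
    (h3 : Module.finrank ℂ H ≤ 3) (A : H →L[ℂ] H) {q : ℂ}
    (hq0 : q ≠ 0) (hq1 : ‖q‖ ≤ 1) (F : ι → κ → ℂ[X]) (hF : Ctr F (Om A q)) (x₀ : κ → H) :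
    ∑ i, ‖∑ j, aeval A (F i j) (x₀ j)‖ ^ 2 ≤ cc q ^ 2 * ∑ j, ‖x₀ j‖ ^ 2 := by
  have : CompleteSpace H := FiniteDimensional.complete ℂ H
  have hnt : Nontrivial H := by
    apply Module.nontrivial_of_finrank_pos (R := ℂ); omega
  have hcc := cc_one_le q
  rcases isEmpty_or_nonempty κ with hem | hne
  · simp
  obtain ⟨K, hK0, hE0, hE⟩ := ext_lemma (ι := ι) (κ := κ) A (Om A q)
    (scalar_two h2 A hq0 hq1)
  refine (hE0 _ (subset_closure ⟨F, hF, rfl⟩) x₀).trans ?_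
  gcongr
  by_contra hcon
  push Not at hcon
  have hK1 : 1 < K := by linarith
  obtain ⟨t, ht, x, hx1, hxK, hort⟩ := hE hK1
  set y : ι → H := fun i => ∑ j, t i j (x j) with hy
  have hyK : ∑ i, ‖y i‖ ^ 2 = K ^ 2 := hxK
  set U : Submodule ℂ H := Submodule.span ℂ (Set.range x) with hU
  set W : Submodule ℂ H := Submodule.span ℂ (Set.range y) with hW
  have hUW : U ≤ Wᗮ := by
    rw [hU, Submodule.span_le]
    rintro _ ⟨j, rfl⟩
    rw [SetLike.mem_coe, Submodule.mem_orthogonal]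
    intro u hu
    induction hu using Submodule.span_induction with
    | mem z hz =>
      obtain ⟨i, rfl⟩ := hz
      exact hort i j
    | zero => exact inner_zero_left _
    | add z z' _ _ h h' => rw [inner_add_left, h, h', add_zero]
    | smul c z _ h => rw [inner_smul_left, h, mul_zero]
  have hdim : Module.finrank ℂ W + Module.finrank ℂ U ≤ Module.finrank ℂ H := by
    have e1 := Submodule.finrank_add_finrank_orthogonal W
    have e2 := Submodule.finrank_mono hUW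
    omega
  rcases Nat.lt_or_ge 1 (Module.finrank ℂ U) with hdU | hdU
  · -- the span of `y` is at most one-dimensional
    have hdW : Module.finrank ℂ W ≤ 1 := by omega
    obtain ⟨e, he⟩ := finrank_le_one_iff.mp hdW
    have hcoef : ∀ i, ∃ c : ℂ, y i = c • (e : H) := by
      intro i
      obtain ⟨c, hc⟩ := he ⟨y i, Submodule.subset_span ⟨i, rfl⟩⟩
      refine ⟨c, ?_⟩
      have := congrArg (Subtype.val) hc
      simpa using this.symm
    choose b hb using hcoef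
    have hsum : (∑ i, ‖b i‖ ^ 2) * ‖(e : H)‖ ^ 2 = K ^ 2 := by
      rw [← hyK, Finset.sum_mul]
      refine Finset.sum_congr rfl fun i _ => ?_
      rw [hb i, norm_smul, mul_pow]
    set β : ℝ := ∑ i, ‖b i‖ ^ 2 with hβ
    have hβ0 : 0 < β := by
      have h5 : 0 ≤ β := Finset.sum_nonneg fun _ _ => sq_nonneg _
      rcases h5.eq_or_lt with h6 | h6
      · exfalso
        rw [← h6, zero_mul] at hsum
        nlinarith
      · exact h6
    set r : ℝ := Real.sqrt β with hr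
    have hr0 : 0 < r := Real.sqrt_pos.mpr hβ0
    have hr2 : r ^ 2 = β := Real.sq_sqrt hβ0.le
    have h7 := closure_row h2 A hq0 hq1 (fun i => ((r⁻¹ : ℝ) : ℂ) * (starRingEnd ℂ) (b i)) (by
      have : ∀ i, ‖((r⁻¹ : ℝ) : ℂ) * (starRingEnd ℂ) (b i)‖ ^ 2 = β⁻¹ * ‖b i‖ ^ 2 := by
        intro i
        rw [norm_mul, RCLike.norm_conj, Complex.norm_real, Real.norm_eq_abs, mul_pow, sq_abs,
          inv_pow, hr2]
      simp only [this]
      rw [← Finset.mul_sum, ← hβ, inv_mul_cancel₀ hβ0.ne']) x t ht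
    rw [hx1, mul_one] at h7
    have h8 : ∑ i, (((r⁻¹ : ℝ) : ℂ) * (starRingEnd ℂ) (b i)) • ∑ j, t i j (x j) =
        ((r : ℝ) : ℂ) • (e : H) := by
      have h9 : ∀ i, (((r⁻¹ : ℝ) : ℂ) * (starRingEnd ℂ) (b i)) • ∑ j, t i j (x j) =
          (((r⁻¹ : ℝ) : ℂ) * ((‖b i‖ ^ 2 : ℝ) : ℂ)) • (e : H) := by
        intro i
        have h10 : ∑ j, t i j (x j) = b i • (e : H) := hb i
        rw [h10, smul_smul]
        congr 1
        rw [mul_assoc, mul_comm ((starRingEnd ℂ) (b i)), Complex.mul_conj,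
          Complex.normSq_eq_norm_sq]
      simp only [h9]
      rw [← Finset.sum_smul, ← Finset.mul_sum, ← Complex.ofReal_sum, ← hβ, ← hr2,
        ← Complex.ofReal_mul]
      congr 2
      field_simp
    rw [h8, norm_smul, Complex.norm_real, Real.norm_eq_abs, mul_pow, sq_abs, hr2, hsum] at h7
    nlinarith
  · -- the span of `x` is at most one-dimensional
    obtain ⟨e, he⟩ := finrank_le_one_iff.mp hdU
    have hcoef : ∀ j, ∃ c : ℂ, x j = c • (e : H) := by
      intro j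
      obtain ⟨c, hc⟩ := he ⟨x j, Submodule.subset_span ⟨j, rfl⟩⟩
      refine ⟨c, ?_⟩
      have := congrArg (Subtype.val) hc
      simpa using this.symm
    choose a ha using hcoef
    have hsum : (∑ j, ‖a j‖ ^ 2) * ‖(e : H)‖ ^ 2 = 1 := by
      rw [← hx1, Finset.sum_mul]
      refine Finset.sum_congr rfl fun j _ => ?_
      rw [ha j, norm_smul, mul_pow]
    set α : ℝ := ∑ j, ‖a j‖ ^ 2 with hα
    have hα0 : 0 < α := by
      have h5 : 0 ≤ α := Finset.sum_nonneg fun _ _ => sq_nonneg _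
      rcases h5.eq_or_lt with h6 | h6
      · exfalso
        rw [← h6, zero_mul] at hsum
        exact zero_ne_one hsum
      · exact h6
    set r : ℝ := Real.sqrt α with hr
    have hr0 : 0 < r := Real.sqrt_pos.mpr hα0
    have hr2 : r ^ 2 = α := Real.sq_sqrt hα0.le
    have h7 := closure_col h2 A hq0 hq1 (fun j => ((r⁻¹ : ℝ) : ℂ) * a j) (by
      have : ∀ j, ‖((r⁻¹ : ℝ) : ℂ) * a j‖ ^ 2 = α⁻¹ * ‖a j‖ ^ 2 := by
        intro j
        rw [norm_mul, Complex.norm_real, Real.norm_eq_abs, mul_pow, sq_abs,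
          inv_pow, hr2]
      simp only [this]
      rw [← Finset.mul_sum, ← hα, inv_mul_cancel₀ hα0.ne']) (((r : ℝ) : ℂ) • (e : H)) t ht
    have h9 : ∀ j, (((r⁻¹ : ℝ) : ℂ) * a j) • ((r : ℝ) : ℂ) • (e : H) = x j := by
      intro j
      rw [ha j, smul_smul]
      congr 1
      have : ((r⁻¹ : ℝ) : ℂ) * ((r : ℝ) : ℂ) = 1 := by
        rw [← Complex.ofReal_mul, inv_mul_cancel₀ hr0.ne', Complex.ofReal_one]
      linear_combination (a j) * this
    simp only [h9] at h7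
    have h10 : ∑ i, ‖∑ j, t i j (x j)‖ ^ 2 = K ^ 2 := hyK
    rw [h10, norm_smul, Complex.norm_real, Real.norm_eq_abs, mul_pow, sq_abs, hr2, hsum,
      mul_one] at h7
    nlinarith

end Pool.Agent.KS6_83.CZ
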